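import Mathlib

/-!
# Complements from alternating forms, and arrays of minors
-/

set_option linter.unusedSectionVars false

namespace Pool.Agent.N211.MO

open Module

section Compl

variable {E U : Type*} [Field E] [AddCommGroup U] [Module E U] {n : ℕ}

/-- The vectors which are orthogonal to `W` for the alternating form. -/
def perp (F : U [⋀^Fin (n + 1)]→ₗ[E] E) (W : Submodule E U) : Submodule E U where
  carrier := {x | ∀ y : Fin n → U, (∀ i, y i ∈ W) → F.curryLeft x y = 0}
  add_mem' {a b} ha hb y hy := by
    rw [map_add, AlternatingMap.add_apply, ha y hy, hb y hy, add_zero]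
  zero_mem' y _ := by rw [map_zero, AlternatingMap.zero_apply]
  smul_mem' c a ha y hy := by
    rw [map_smul, AlternatingMap.smul_apply, ha y hy, smul_zero]

variable (F : U [⋀^Fin (n + 1)]→ₗ[E] E) (w : Fin (n + 1) → U)

lemma cons_perm {v : Fin n → Fin (n + 1)} (hv : Function.Injective v) {m : Fin (n + 1)}
    (hm : m ∉ Set.range v) (z : U) : ∃ s : E, s ≠ 0 ∧
      F.curryLeft z (fun i => w (v i)) = s * F (Function.update w m z) := by
  have h1 : Function.Injective (Fin.cons m v : Fin (n + 1) → Fin (n + 1)) :=
    Fin.cons_injective_iff.2 ⟨hm, hv⟩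
  obtain ⟨σ, hσ⟩ : ∃ σ : Equiv.Perm (Fin (n + 1)), ⇑σ = (Fin.cons m v : Fin (n + 1) → Fin (n + 1)) :=
    ⟨Equiv.ofBijective _ (Finite.injective_iff_bijective.1 h1), rfl⟩
  refine ⟨((Equiv.Perm.sign σ : ℤˣ) : ℤ), ?_, ?_⟩
  · rcases Int.units_eq_one_or (Equiv.Perm.sign σ) with h | h <;> rw [h] <;> simp
  · have h2 : F.curryLeft z (fun i => w (v i)) = F (Function.update w m z ∘ σ) := by
      rw [AlternatingMap.curryLeft_apply_apply]
      congr 1
      funext i
      refine Fin.cases ?_ (fun i => ?_) i
      · change z = Function.update w m z (σ 0)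
        rw [hσ, Fin.cons_zero, Function.update_self]
      · change w (v i) = Function.update w m z (σ i.succ)
        rw [hσ, Fin.cons_succ, Function.update_of_ne]
        rintro rfl
        exact hm ⟨i, rfl⟩
    rw [h2, AlternatingMap.map_perm]
    rcases Int.units_eq_one_or (Equiv.Perm.sign σ) with h | h <;> rw [h] <;> simp

lemma update_sum (x : U) (c : Fin (n + 1) → E) (m : Fin (n + 1)) :
    F (Function.update w m (x - ∑ l, c l • w l)) = F (Function.update w m x) - c m * F w := by
  have h1 : ∀ z : U, F (Function.update w m z) =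
      (F.toMultilinearMap.toLinearMap w m) z := fun z => rfl
  have h0 : (F.toMultilinearMap.toLinearMap w m) (w m) = F w := by
    rw [← h1, Function.update_eq_self]
  rw [h1, h1, map_sub, map_sum, Finset.sum_eq_single m]
  · rw [map_smul, h0, smul_eq_mul]
  · intro l _ hl
    rw [map_smul, ← h1]
    have h2 : F (Function.update w m (w l)) = 0 := by
      refine F.map_eq_zero_of_eq _ (i := m) (j := l) ?_ hl.symm
      rw [Function.update_self, Function.update_of_ne hl]
    rw [h2, smul_zero]
  · intro h
    exact absurd (Finset.mem_univ m) h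

/-- **A subspace on which an alternating form of the right degree does not vanish has a complement
defined by the form.** -/
theorem isCompl_perp {W : Submodule E U} (w : Basis (Fin (n + 1)) E W)
    (hF : F (fun i => (w i : U)) ≠ 0) : IsCompl W (perp F W) := by
  classical
  obtain ⟨w', hw'⟩ : ∃ w' : Fin (n + 1) → U, w' = fun i => (w i : U) := ⟨_, rfl⟩
  rw [← hw'] at hF
  have hw : ∀ i, w' i ∈ W := fun i => by rw [hw']; exact (w i).2
  have hex : ∀ v : Fin n → Fin (n + 1), ∃ m, m ∉ Set.range v := by
    intro v
    by_contra h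
    push Not at h
    have h1 := Fintype.card_le_of_surjective v h
    simp at h1
  constructor
  · rw [Submodule.disjoint_def]
    intro x hx hx'
    have h1 : x = ∑ l, w.repr ⟨x, hx⟩ l • w' l := by
      have h2 := congrArg (Subtype.val) (w.sum_repr ⟨x, hx⟩)
      rw [hw']
      refine h2.symm.trans ?_
      rw [AddSubmonoidClass.coe_finsetSum]
      rfl
    have h3 : ∀ m, w.repr ⟨x, hx⟩ m = 0 := by
      intro m
      obtain ⟨s, hs, h4⟩ := cons_perm F w' (Fin.succAbove_right_injective (p := m))
        (m := m) (fun ⟨i, hi⟩ => Fin.succAbove_ne m i hi) x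
      have h5 := hx' (fun i => w' (m.succAbove i)) fun i => hw _
      rw [h5] at h4
      have h6 : F (Function.update w' m x) = 0 := (mul_eq_zero.1 h4.symm).resolve_left hs
      have h7 := update_sum F w' x (w.repr ⟨x, hx⟩) m
      rw [← h1, sub_self, h6, zero_sub] at h7
      have h8 : F (Function.update w' m (0 : U)) = 0 := F.toMultilinearMap.map_update_zero w' m
      rw [h8] at h7
      have h9 := neg_eq_zero.1 h7.symm
      exact (mul_eq_zero.1 h9).resolve_right hF
    rw [h1]
    exact Finset.sum_eq_zero fun l _ => by rw [h3, zero_smul]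
  · rw [codisjoint_iff, eq_top_iff]
    intro x _
    obtain ⟨c, hc⟩ : ∃ c : Fin (n + 1) → E, ∀ m, c m = F (Function.update w' m x) / F w' :=
      ⟨_, fun m => rfl⟩
    obtain ⟨p, hp⟩ : ∃ p, p = ∑ l, c l • w' l := ⟨_, rfl⟩
    have hpW : p ∈ W := by
      rw [hp]
      exact Submodule.sum_mem _ fun l _ => Submodule.smul_mem _ _ (hw l)
    refine Submodule.mem_sup.2 ⟨p, hpW, x - p, ?_, by abel⟩
    have h1 : (F.curryLeft (x - p)).compLinearMap W.subtype = 0 := by
      refine Basis.ext_alternating w fun v hv => ?_
      obtain ⟨m, hm⟩ := hex v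
      obtain ⟨s, -, h4⟩ := cons_perm F w' hv hm (x - p)
      rw [AlternatingMap.compLinearMap_apply, AlternatingMap.zero_apply]
      have h5 : (fun i => W.subtype (w (v i))) = fun i => w' (v i) := by
        funext i
        rw [hw']
        rfl
      rw [h5, h4, hp, update_sum, hc, div_mul_cancel₀ _ hF, sub_self, mul_zero]
    intro y hy
    have h2 := congrArg (fun f : W [⋀^Fin n]→ₗ[E] E => f fun i => ⟨y i, hy i⟩) h1
    exact h2

end Compl

section Minors

variable {E : Type*} [Field E] {N : Type*} [Fintype N] [DecidableEq N] {r : ℕ}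

/-- The array of the minors. -/
noncomputable def Dt (E : Type*) [Field E] {N : Type*} {r : ℕ} (y : Fin r → N → E) :
    (Fin r → N) → E := fun s => Matrix.det (Matrix.of fun a b => y a (s b))

/-- Expansion of a determinant of sums. -/
lemma sum_Dt (z y : Fin r → N → E) : ∑ s : Fin r → N, (∏ b, z b (s b)) * Dt E y s =
    Matrix.det (Matrix.of fun a b => ∑ t, z b t * y a t) := by
  rw [← Matrix.det_transpose]
  have h1 : (Matrix.of fun a b => ∑ t, z b t * y a t).transpose =
      fun b => ∑ t, z b t • fun a => y a t := by
    ext b a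
    rw [Matrix.transpose_apply, Matrix.of_apply, Finset.sum_apply]
    rfl
  rw [h1]
  have h2 := (Matrix.detRowAlternating (n := Fin r) (R := E)).toMultilinearMap.map_sum
    (g := fun b (t : N) => z b t • fun a => y a t)
  have h3 : (Matrix.detRowAlternating (n := Fin r) (R := E)).toMultilinearMap
      (fun b => ∑ t, z b t • fun a => y a t) = Matrix.det (fun b => ∑ t, z b t • fun a => y a t) :=
    rfl
  rw [← h3, h2]
  refine Finset.sum_congr rfl fun s _ => ?_
  rw [MultilinearMap.map_smul_univ, smul_eq_mul]
  congr 1
  rw [Dt, ← Matrix.det_transpose]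
  rfl

/-- The alternating form given by a functional on the arrays. -/
noncomputable def altOf (φ : ((Fin r → N) → E) →ₗ[E] E) : (N → E) [⋀^Fin r]→ₗ[E] E :=
  φ.compAlternatingMap (AlternatingMap.pi fun s : Fin r → N =>
    (Matrix.detRowAlternating (n := Fin r) (R := E)).compLinearMap (LinearMap.funLeft E E s))

lemma altOf_apply (φ : ((Fin r → N) → E) →ₗ[E] E) (y : Fin r → N → E) :
    altOf φ y = φ (Dt E y) := rfl

/-- The array of the minors of independent vectors is not zero. -/
lemma Dt_ne {y : Fin r → N → E} (hy : LinearIndependent E y) : Dt E y ≠ 0 := by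
  classical
  have h1 : Function.Injective (Fintype.linearCombination E y) :=
    hy.fintypeLinearCombination_injective
  obtain ⟨g, hg⟩ := LinearMap.exists_leftInverse_of_injective (Fintype.linearCombination E y)
    (LinearMap.ker_eq_bot.2 h1)
  have h2 : ∀ a, g (y a) = Pi.single a 1 := by
    intro a
    have h3 := LinearMap.congr_fun hg (Pi.single a 1)
    rw [LinearMap.comp_apply, Fintype.linearCombination_apply_single, one_smul] at h3
    exact h3
  intro h0
  have h3 := sum_Dt (fun b t => g (Pi.single t 1) b) y
  rw [h0] at h3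
  simp only [Pi.zero_apply, mul_zero, Finset.sum_const_zero] at h3
  have h4 : (Matrix.of fun a b => ∑ t, g (Pi.single t 1) b * y a t) =
      (1 : Matrix (Fin r) (Fin r) E) := by
    ext a b
    rw [Matrix.of_apply]
    have h5 : y a = ∑ t, y a t • (Pi.single t (1 : E) : N → E) := by
      funext t
      rw [Finset.sum_apply, Finset.sum_eq_single t]
      · simp
      · intro s _ hs
        simp [hs.symm]
      · intro h
        exact absurd (Finset.mem_univ t) h
    have h6 := congrFun (h2 a) b
    have h7 : g (y a) = ∑ t, y a t • g (Pi.single t 1) := by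
      conv_lhs => rw [h5]
      rw [map_sum]
      exact Finset.sum_congr rfl fun t _ => map_smul g _ _
    rw [h7, Finset.sum_apply] at h6
    rw [Matrix.one_apply]
    rw [Pi.single_apply] at h6
    simp only [Pi.smul_apply, smul_eq_mul] at h6
    refine Eq.trans ?_ (h6.trans (if_congr eq_comm rfl rfl))
    exact Finset.sum_congr rfl fun t _ => mul_comm _ _
  rw [h4, Matrix.det_one] at h3
  exact zero_ne_one h3

end Minors

end Pool.Agent.N211.MO
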