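import Pool.Agent.N211.MO.SSMain
import Pool.Agent.Y133.Half.Num

/-!
# The Tate conjecture for all powers from one product
-/

set_option linter.unusedSectionVars false

open CategoryTheory AlgebraicGeometry TensorProduct

universe u

namespace Pool.Agent.N211.MO

open Module Matrix
open Pool.Agent.H914 Pool.Agent.H914.VarClass Pool.Agent.H914.VarClass.Obj
  Pool.Agent.H914.WeilCohomology
open Pool.Agent.Y121.AHS
open Pool.Agent.Y121.AH (hodgePred)
open Pool.Agent.Y133.Half (pw wb finrank_pw ClassPred PH push_fst)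
open Pool.Agent.N996.BP (kp cQ HData totalBetti IsPolarisation RForm)
open Pool.Agent.N996.BP.Geo (Fx exists_ubasis)
open Pool.Agent.N211.BT

variable {k : Type u} [Field k] {𝒱 : VarClass k} {ops : CycleOps 𝒱}

/-- The classes of algebraic cycles. -/
def algPred (T : HodgeTheory ops) : ClassPred T.W where
  P X j c := ∃ z, X.IsCyc j z ∧ T.W.cl X z = c
  gr := by
    rintro X j _ ⟨z, hz, rfl⟩
    exact T.W.cl_mem hz
  zero {X j} := ⟨0, SmVar.IsCyc.zero _ _, map_zero _⟩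
  add := by
    rintro X j _ _ ⟨z, hz, rfl⟩ ⟨z', hz', rfl⟩
    exact ⟨z + z', SmVar.IsCyc.add hz hz', map_add _ _ _⟩
  smul := by
    rintro X j r _ ⟨z, hz, rfl⟩
    obtain ⟨q, rfl⟩ := T.rat r
    exact ⟨q • z, SmVar.IsCyc.smul _ hz, T.W.cl_smul _ _⟩
  cl {X j z} hz := ⟨z, hz, rfl⟩
  mul := by
    rintro X i j _ _ ⟨z, hz, rfl⟩ ⟨z', hz', rfl⟩
    exact ⟨ops.mul z z', ops.mul_mem hz hz', T.W.cl_mul _ _⟩
  map := by
    rintro X Y f j _ ⟨z, hz, rfl⟩
    exact ⟨ops.pull f z, ops.pull_mem f hz, T.W.cl_pull _ _⟩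
  push := by
    rintro X Y f j l hl _ ⟨z, hz, rfl⟩
    exact ⟨ops.push f z, ops.push_mem f hz (by omega), T.W.cl_push _ _⟩

variable {T : HodgeTheory ops} {X A : 𝒱.Obj} {E : Type} [Field E] [Algebra T.W.K E]
  {Γ : Type} [Group Γ] {G : GaloisAction T E Γ X} {N : ℕ} {ψ : RForm T.W X}

/-- The push-forward. -/
noncomputable def pushB (E : Type) [Field E] [Algebra T.W.K E] {Y Z : 𝒱.Obj} (f : Y ⟶ Z) :
    HL T.W E Y →ₗ[E] HL T.W E Z :=
  ((T.W.push f).baseChange E : E ⊗[T.W.K] T.W.H Y →ₗ[E] E ⊗[T.W.K] T.W.H Z)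

lemma pushB_em {Y Z : 𝒱.Obj} (f : Y ⟶ Z) (c : T.W.H Y) :
    pushB E f (emL T.W E c) = emL T.W E (T.W.push f c) :=
  LinearMap.baseChange_tmul _ _ _

/-- The operator `z ↦ pr_* (z · q^* t)`. -/
noncomputable def sl (E : Type) [Field E] [Algebra T.W.K E] {Y A : 𝒱.Obj} (t : T.W.H A) :
    HL T.W E (Y.prod A) →ₗ[E] HL T.W E Y :=
  (pushB E (fst Y A)) ∘ₗ (mulB T.W E (Y.prod A)).flip (mapB E (snd Y A) (emL T.W E t))

lemma sl_em {Y A : 𝒱.Obj} (t : T.W.H A) (c : T.W.H (Y.prod A)) :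
    sl E t (emL T.W E c) = emL T.W E (T.W.push (fst Y A) (c * T.W.map (snd Y A) t)) := by
  rw [sl, LinearMap.comp_apply, LinearMap.flip_apply, mapB_apply, ← emL_map, mulB_apply,
    ← emL_mul, pushB_em]

lemma sl_xL {Y A : 𝒱.Obj} {t : T.W.H A} (ht : t ∈ PH T.W A 0) (x : HL T.W E Y) :
    sl E t (xL x (emL T.W E (1 : T.W.H A))) = algebraMap T.W.K E (T.W.tr A t) • x := by
  have h : (sl E t) ∘ₗ ((mulB T.W E (Y.prod A)).flip (mapB E (snd Y A)
      (emL T.W E (1 : T.W.H A)))) ∘ₗ (mapB E (fst Y A)) =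
      algebraMap T.W.K E (T.W.tr A t) • LinearMap.id := by
    refine (bL E (Module.finBasis T.W.K (T.W.H Y))).ext fun i => ?_
    rw [bL_apply, LinearMap.comp_apply, LinearMap.comp_apply, LinearMap.flip_apply, mapB_apply,
      mapB_apply, ← emL_map, ← emL_map, mulB_apply, ← emL_mul, sl_em, map_one, mul_one]
    have h1 := push_fst (W := T.W) (X := Y) (Y := A)
      ((Module.finBasis T.W.K (T.W.H Y)) i) t ht
    rw [LinearMap.smul_apply, LinearMap.id_apply, ← emL_smul, ← h1]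
    rfl
  exact LinearMap.congr_fun h x

variable {σA : Γ → (HL T.W E A →ₗ[E] HL T.W E A)}
  {σP : Γ → (HL T.W E ((pw X N).prod A) →ₗ[E] HL T.W E ((pw X N).prod A))}
  {O : Subgroup Γ → Prop} {Q : ClassPred T.W}

/-- The Tate conjecture for the power from the product. -/
lemma tate_of_setup (S : Setup G A N σA σP O fun j => {c | Q.P _ j c})
    (h1 : ∀ g, σA g (emL T.W E (1 : T.W.H A)) = emL T.W E (1 : T.W.H A)) (hO : O ⊤)
    {j : ℕ} {x : HL T.W E (pw X N)} (hx : IsDeg (2 * j) x)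
    (hinv : ∃ D, O D ∧ ∀ g ∈ D, G.ρ N g x = (G.χ g : E) ^ j • x) :
    x ∈ Submodule.span E {y | ∃ c, Q.P (pw X N) j c ∧ y = emL T.W E c} := by
  rcases subsingleton_or_nontrivial (T.W.H (pw X N)) with hs | hs
  · have h2 : x = 0 := by
      have h3 : Subsingleton (E ⊗[T.W.K] T.W.H (pw X N)) := inferInstance
      exact Subsingleton.elim (α := E ⊗[T.W.K] T.W.H (pw X N)) x 0
    rw [h2]
    exact Submodule.zero_mem _
  -- the cohomology of `A` is not zero
  have hA : (1 : T.W.H A) ≠ 0 := by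
    intro h0
    have hu : (emL T.W E (1 : T.W.H (pw X N))) ≠ 0 := by
      intro h2
      exact one_ne_zero (Y121.AH.em_injective (W := T.W) (L := E) h2)
    obtain ⟨y, -, -, -, hy, -⟩ := S.line ⊤ hO (fun _ => 1) 0
      (emL T.W E (1 : T.W.H (pw X N))) hu (emL_deg (T.W.one_mem _)) fun g _ => by
        rw [one_smul]
        have h2 : ∀ x : HL T.W E (pw X N), mulB T.W E _ x (emL T.W E (1 : T.W.H (pw X N))) = x :=
          fun x => mul_one (show E ⊗[T.W.K] T.W.H (pw X N) from x)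
        have h2' : ∀ x : HL T.W E (pw X N), mulB T.W E _ (emL T.W E (1 : T.W.H (pw X N))) x = x :=
          fun x => one_mul (show E ⊗[T.W.K] T.W.H (pw X N) from x)
        have h3 : ∀ y : HL T.W E (pw X N),
            mulB T.W E _ (G.ρ N g (emL T.W E (1 : T.W.H (pw X N)))) y = y := by
          intro y
          have h4 : y = G.ρ N g (G.ρ N g⁻¹ y) := by
            rw [← Module.End.mul_apply, ← map_mul, mul_inv_cancel, map_one,
              Module.End.one_apply]
          conv_lhs => rw [h4]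
          rw [← rho_mulB, h2', ← h4]
        have h5 := h3 (emL T.W E (1 : T.W.H (pw X N)))
        rw [h2] at h5
        exact h5
    apply hy
    have h3 : ∀ y : E ⊗[T.W.K] T.W.H A, y = 0 := by
      intro y
      have h4 : (1 : E ⊗[T.W.K] T.W.H A) = 0 := by
        rw [Algebra.TensorProduct.one_def, h0, TensorProduct.tmul_zero]
      rw [← mul_one y, h4, mul_zero]
    exact h3 y
  obtain ⟨D₀, hD₀, hHL, -⟩ := T.polar A
  obtain ⟨t, ht, ht0⟩ := exists_top hD₀ hHL hA
  obtain ⟨z₀, hz₀, hz₀'⟩ := ht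
  have htQ : Q.P A A.dim t := by
    rw [← hz₀']
    exact Q.cl hz₀
  have hz : xL x (emL T.W E (1 : T.W.H A)) ∈ Submodule.span E
      {y | ∃ c ∈ (fun j => {c | Q.P ((pw X N).prod A) j c}) j, y = emL T.W E c} := by
    have h2 : IsDeg (2 * j) (xL x (emL T.W E (1 : T.W.H A))) := by
      have h3 := xL_deg hx (emL_deg (E := E) (T.W.one_mem A))
      rwa [add_zero] at h3
    obtain ⟨D, hD, h3⟩ := hinv
    refine S.tate j _ h2 ⟨D, hD, fun g hg => ?_⟩
    rw [S.xp, h3 g hg, h1, xL_smul']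
  have hsl := sl_xL (E := E) (Y := pw X N) (PH.of' (by omega) (Q.gr htQ)) x
  have ht1 : algebraMap T.W.K E (T.W.tr A t) ≠ 0 := by
    rw [Ne, map_eq_zero]
    exact ht0
  have hx' : x = (algebraMap T.W.K E (T.W.tr A t))⁻¹ •
      sl E t (xL x (emL T.W E (1 : T.W.H A))) := by
    rw [hsl, smul_smul, inv_mul_cancel₀ ht1, one_smul]
  rw [hx']
  refine Submodule.smul_mem _ _ ?_
  refine Submodule.span_induction (p := fun y _ => sl E t y ∈ Submodule.span E
    {y | ∃ c, Q.P (pw X N) j c ∧ y = emL T.W E c}) ?_ ?_ ?_ ?_ hz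
  · rintro _ ⟨c, hc, rfl⟩
    rw [sl_em]
    refine Submodule.subset_span ⟨_, ?_, rfl⟩
    refine Q.push (fst (pw X N) A) (j := j + A.dim) ?_ (Q.mul hc (Q.map _ htQ))
    have h5 : ((pw X N).prod A).dim = (pw X N).dim + A.dim := rfl
    rw [h5]
    omega
  · rw [map_zero]; exact Submodule.zero_mem _
  · intro x y _ _ hx hy; rw [map_add]; exact Submodule.add_mem _ hx hy
  · intro c x _ hx; rw [map_smul]; exact Submodule.smul_mem _ _ hx

/-- The exponent. -/
def bigExp (b : ℕ) : ℕ := tateExponent b * b ^ tateExponent b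

lemma finrank_gr_le {Y : 𝒱.Obj} (i : ℕ) :
    finrank T.W.K (T.W.gr Y i) ≤ finrank T.W.K (T.W.H Y) := Submodule.finrank_le _

/-- **The Tate conjecture and semisimplicity for all powers from one product.** -/
theorem t_main [TopologicalSpace Γ] [TopologicalSpace E] [IsTopologicalRing E] [T2Space E]
    (h : IsPolarisation T X ψ) (hR : G.Respects ψ) (hA : G.IsArithmetic)
    (hE : Nonempty (E →+* ℂ)) (hle : ∀ Z, Q.sp Z ≤ (hodgePred (toH T)).sp Z)
    (S : Setup G A N σA σP O fun j => {c | Q.P _ j c})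
    (h1 : ∀ g, σA g (emL T.W E (1 : T.W.H A)) = emL T.W E (1 : T.W.H A)) (hO : O ⊤)
    (hcl : ∀ K : Subgroup Γ, K.FiniteIndex → ∃ D, O D ∧ ∀ j (x : HL T.W E (pw X N)),
      G.IsInvariant K N j x → G.IsInvariant D N j x)
    (hN : bigExp (totalBetti T X) ≤ N + 1) :
    (∀ n, TateIn G Q n) ∧
    ((∀ n j c, Q.P (pw X n) j c → ∃ Δ : Subgroup Γ, Δ.FiniteIndex ∧
      ∀ g ∈ Δ, G.ρ n g (emL T.W E c) = twL (G.χ g : E) j (emL T.W E c)) →
      ∀ (n : ℕ) (Δ : Subgroup Γ), Δ.FiniteIndex →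
        ∀ i, IsSemisimpleOn (G.ρ n) Δ (grL T.W E (pw X n) i)) := by
  have hTN : TateIn G Q N := by
    intro K hK j x hx hinv
    obtain ⟨D, hD, h2⟩ := hcl K hK
    exact tate_of_setup S h1 hO hx ⟨D, hD, fun g hg => h2 j x hinv g hg⟩
  obtain ⟨M, hM⟩ : ∃ M, M = tateExponent (totalBetti T X) - 1 := ⟨_, rfl⟩
  obtain ⟨b, hb⟩ : ∃ b, b = totalBetti T X := ⟨_, rfl⟩
  have hbM : M ≤ N ∧ b ^ (M + 1) * (M + 1) ≤ N + 1 := by
    rw [← hb] at hM hN
    rcases Nat.eq_zero_or_pos b with h0 | h0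
    · have h2 : tateExponent b = 0 := by
        rw [h0, tateExponent]
        simp
      rw [h2] at hM
      rw [hM, h0]
      simp
    · have h2 : 1 ≤ tateExponent b := Nat.one_le_pow _ _ (by
        have h3 := Nat.factorial_pos b
        have h4 : 0 < 4 * b := by omega
        exact Nat.mul_pos (Nat.mul_pos h4 h3) (by positivity))
      have h3 : M + 1 = tateExponent b := by omega
      have h4 : tateExponent b * 1 ≤ tateExponent b * b ^ tateExponent b :=
        Nat.mul_le_mul_left _ (Nat.one_le_pow _ _ h0)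
      rw [bigExp] at hN
      rw [h3]
      refine ⟨by omega, ?_⟩
      rw [mul_comm]
      exact hN
  have hfr : ∀ i, finrank T.W.K (T.W.gr (pw X M) i) ≤ b ^ (M + 1) := by
    intro i
    refine (finrank_gr_le i).trans ?_
    rw [finrank_pw, hb]
    rfl
  refine bounded_q G (Q := Q) h hR hA hE hle (fun j => ?_) ?_
  · rw [← hM]
    exact ss_main h hR hE S hO ((Nat.mul_le_mul_right _ (hfr _)).trans hbM.2)
  · rw [← hM]
    exact TateIn.mono G (Module.finBasis T.W.K (T.W.H X)) hTN hbM.1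

end Pool.Agent.N211.MO
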