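import Pool.Agent.N211.BT.HD
import Mathlib.LinearAlgebra.Matrix.Kronecker

/-!
# Semi-invariant functionals from decomposable combinations of rational arrays
-/

set_option linter.unusedSectionVars false

namespace Pool.Agent.N211.MO

open Matrix ComplexConjugate
open Pool.Agent.N996.BP
open scoped Kronecker ComplexOrder

section Rank

variable {N β : Type} [Fintype N] [Fintype β] [DecidableEq N] [DecidableEq β] {R : Type*} [CommRing R]

/-- The tensor product of two vectors. -/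
def tp (v : N → R) (u : β → R) : N × β → R := fun p => v p.1 * u p.2

lemma kron_tp (A : Matrix N N R) (B : Matrix β β R) (v : N → R) (u : β → R) :
    (A ⊗ₖ B) *ᵥ tp v u = tp (A *ᵥ v) (B *ᵥ u) := by
  ext ⟨w, a⟩
  rw [mulVec, dotProduct, Fintype.sum_prod_type, tp, mulVec, mulVec, dotProduct, dotProduct,
    Finset.sum_mul_sum]
  refine Finset.sum_congr rfl fun x _ => Finset.sum_congr rfl fun y _ => ?_
  rw [kroneckerMap_apply, tp]
  ring

lemma rank_one {A : Matrix N N ℂ} {B : Matrix β β ℂ} {c : ℂ} (hc : c ≠ 0) {v : N → ℂ}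
    {u : β → ℂ} (hv : v ≠ 0) (hu : u ≠ 0) (h : (A ⊗ₖ B) *ᵥ tp v u = c • tp v u) :
    ∃ t : ℂ, t ≠ 0 ∧ A *ᵥ v = t • v := by
  rw [kron_tp] at h
  have h1 : ∀ w a, (A *ᵥ v) w * (B *ᵥ u) a = c * (v w * u a) := fun w a => congrFun h (w, a)
  obtain ⟨w₀, hw⟩ := Function.ne_iff.1 hv
  obtain ⟨a₀, ha⟩ := Function.ne_iff.1 hu
  rw [Pi.zero_apply] at hw ha
  have h2 : (B *ᵥ u) a₀ ≠ 0 := by
    intro h0
    have h3 := h1 w₀ a₀
    rw [h0, mul_zero] at h3
    exact mul_ne_zero hc (mul_ne_zero hw ha) h3.symm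
  refine ⟨c * u a₀ / (B *ᵥ u) a₀, div_ne_zero (mul_ne_zero hc ha) h2, ?_⟩
  funext w
  rw [Pi.smul_apply, smul_eq_mul, div_mul_eq_mul_div, eq_div_iff h2, h1]
  ring

end Rank

section Span

variable {M : Type} [Fintype M]

/-- The rational array as a complex array. -/
def cr (q : M → ℚ) : M → ℂ := fun i => (q i : ℂ)

lemma conj_span {Q : Set (M → ℚ)} {z : M → ℂ} (hz : z ∈ Submodule.span ℂ (cr '' Q)) :
    (fun i => conj (z i)) ∈ Submodule.span ℂ (cr '' Q) := by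
  refine Submodule.span_induction (p := fun z _ => (fun i => conj (z i)) ∈
    Submodule.span ℂ (cr '' Q)) ?_ ?_ ?_ ?_ hz
  · rintro _ ⟨q, hq, rfl⟩
    have h : (fun i => conj (cr q i)) = cr q := by
      funext i
      exact map_ratCast _ _
    rw [h]
    exact Submodule.subset_span ⟨q, hq, rfl⟩
  · have h : (fun i => conj ((0 : M → ℂ) i)) = 0 := by
      funext i
      simp
    rw [h]
    exact Submodule.zero_mem _
  · intro x y _ _ hx hy
    have h : (fun i => conj ((x + y) i)) = (fun i => conj (x i)) + fun i => conj (y i) := by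
      funext i
      simp
    rw [h]
    exact Submodule.add_mem _ hx hy
  · intro t x _ hx
    have h : (fun i => conj ((t • x) i)) = (conj t) • fun i => conj (x i) := by
      funext i
      simp
    rw [h]
    exact Submodule.smul_mem _ _ hx

lemma eig_span [DecidableEq M] {Q : Set (M → ℚ)} {z : M → ℂ}
    (hz : z ∈ Submodule.span ℂ (cr '' Q)) (A : Matrix M M ℂ) (c : ℂ)
    (h : ∀ q ∈ Q, A *ᵥ cr q = c • cr q) : A *ᵥ z = c • z := by
  refine Submodule.span_induction (p := fun z _ => A *ᵥ z = c • z) ?_ ?_ ?_ ?_ hz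
  · rintro _ ⟨q, hq, rfl⟩
    exact h q hq
  · rw [mulVec_zero, smul_zero]
  · intro x y _ _ hx hy
    rw [mulVec_add, hx, hy, smul_add]
  · intro t x _ hx
    rw [mulVec_smul, hx, smul_comm]

end Span

section Main

variable {ι : Type} [Fintype ι] [DecidableEq ι] {κ : Type} [Fintype κ] [DecidableEq κ]
  {β : Type} [Fintype β] [DecidableEq β] (H : HData ι)

/-- The functional. -/
noncomputable def fn (v : (κ → ι) → ℂ) : ((κ → ι) → ℂ) →ₗ[ℂ] ℂ where
  toFun x := (fun w => conj (v w)) ⬝ᵥ (kp κ (cQ H.Qr) *ᵥ x)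
  map_add' x y := by rw [mulVec_add, dotProduct_add]
  map_smul' c x := by rw [mulVec_smul, dotProduct_smul]; rfl

lemma fn_apply (v x : (κ → ι) → ℂ) :
    fn H v x = (fun w => conj (v w)) ⬝ᵥ (kp κ (cQ H.Qr) *ᵥ x) := rfl

lemma kp_cR (κ : Type) [Fintype κ] [DecidableEq κ] (A : Matrix ι ι ℝ) :
    kp κ (A.map (fun x : ℝ => (x : ℂ))) = (kp κ A).map (fun x : ℝ => (x : ℂ)) :=
  kp_map Complex.ofRealHom A

/-- Positivity. -/
lemma fn_ne {v : (κ → ι) → ℂ} (hv : v ≠ 0) {t : ℂ} (ht : kp κ (H.l Complex.I) *ᵥ v = t • v) :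
    fn H v v ≠ 0 := by
  intro h0
  obtain ⟨A, hA⟩ : ∃ A, A = kp κ (H.D.M.map (fun x : ℝ => (x : ℂ))) := ⟨_, rfl⟩
  have hQC : kp κ (cQ H.Qr) * kp κ (H.l Complex.I) = Aᵀ * A := by
    have h1 : cQ H.Qr = H.D.Q.map (fun x : ℝ => (x : ℂ)) := by
      rw [H.hQr]
      ext i j
      simp [cQ]
    have h2 : H.l Complex.I = H.D.C.map (fun x : ℝ => (x : ℂ)) := H.hC.symm
    rw [h1, h2, ← kp_mul, hA, ← kp_transpose, ← kp_mul]
    congr 1
    have h3 := congrArg (fun B : Matrix ι ι ℝ => B.map (fun x : ℝ => (x : ℂ))) H.D.hS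
    have h4 : ∀ B C : Matrix ι ι ℝ, (B * C).map (fun x : ℝ => (x : ℂ)) =
        B.map (fun x : ℝ => (x : ℂ)) * C.map (fun x : ℝ => (x : ℂ)) := fun B C =>
      Matrix.map_mul (f := Complex.ofRealHom)
    simp only [h4] at h3
    exact h3.symm
  have h1 : (fun w => conj (v w)) ⬝ᵥ ((kp κ (cQ H.Qr) * kp κ (H.l Complex.I)) *ᵥ v) = 0 := by
    rw [← mulVec_mulVec, ht, mulVec_smul, dotProduct_smul]
    change t • (fn H v v) = 0
    rw [h0, smul_zero]
  rw [hQC, ← mulVec_mulVec, mulVec_transpose, dotProduct_comm, ← dotProduct_mulVec] at h1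
  have h2 : A *ᵥ (fun w => conj (v w)) = fun w => conj ((A *ᵥ v) w) := by
    funext w
    rw [mulVec, mulVec, dotProduct, dotProduct, map_sum]
    refine Finset.sum_congr rfl fun x _ => ?_
    rw [map_mul]
    congr 1
    rw [hA, kp_cR, Matrix.map_apply, Complex.conj_ofReal]
  rw [h2] at h1
  have h3 : A *ᵥ v = 0 := by
    have h4 : star (A *ᵥ v) ⬝ᵥ (A *ᵥ v) = 0 := by
      rw [dotProduct_comm]
      exact h1
    exact dotProduct_star_self_eq_zero.1 h4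
  have h4 : kp κ (H.D.Mi.map (fun x : ℝ => (x : ℂ))) * A = 1 := by
    have h5 : H.D.Mi * H.D.M = 1 := mul_eq_one_comm.1 H.D.hM
    rw [hA, ← kp_mul]
    have h6 : H.D.Mi.map (fun x : ℝ => (x : ℂ)) * H.D.M.map (fun x : ℝ => (x : ℂ)) = 1 := by
      have h7 := congrArg (fun B : Matrix ι ι ℝ => B.map (fun x : ℝ => (x : ℂ))) h5
      have h8 : (H.D.Mi * H.D.M).map (fun x : ℝ => (x : ℂ)) =
        H.D.Mi.map (fun x : ℝ => (x : ℂ)) * H.D.M.map (fun x : ℝ => (x : ℂ)) :=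
        Matrix.map_mul (f := Complex.ofRealHom)
      rw [← h8, h7]
      exact Matrix.map_one _ Complex.ofReal_zero Complex.ofReal_one
    rw [h6, kp_one]
  apply hv
  have h5 : kp κ (H.D.Mi.map (fun x : ℝ => (x : ℂ))) *ᵥ (A *ᵥ v) = v := by
    rw [mulVec_mulVec, h4, one_mulVec]
  rw [← h5, h3, mulVec_zero]

/-- Semi-invariance. -/
lemma fn_semi {deg : ι → ℕ} {c : ℂ} {r : Matrix ι ι ℂ}
    (hr : rᵀ * cQ H.Qr * r = Matrix.diagonal (fun i => c ^ deg i) * cQ H.Qr)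
    {v : (κ → ι) → ℂ} {d : ℕ} (hd : ∀ w, v w ≠ 0 → ∑ i, deg (w i) = d) {t : ℂ} (ht : t ≠ 0)
    (hv : kp κ r *ᵥ (fun w => conj (v w)) = t • fun w => conj (v w)) (x : (κ → ι) → ℂ) :
    fn H v (kp κ r *ᵥ x) = (c ^ d / t) * fn H v x := by
  have h1 : (kp κ r)ᵀ * kp κ (cQ H.Qr) * kp κ r =
      Matrix.diagonal (fun w : κ → ι => c ^ ∑ i, deg (w i)) * kp κ (cQ H.Qr) := by
    rw [← kp_transpose, ← kp_mul, ← kp_mul, hr, kp_mul]
    congr 1
    ext i j
    rw [kp_apply, Matrix.diagonal_apply]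
    by_cases h : i = j
    · subst h
      rw [if_pos rfl, ← Finset.prod_pow_eq_pow_sum]
      exact Finset.prod_congr rfl fun k _ => Matrix.diagonal_apply_eq _ _
    · rw [if_neg h]
      obtain ⟨k, hk⟩ := Function.ne_iff.1 h
      exact Finset.prod_eq_zero (Finset.mem_univ k) (Matrix.diagonal_apply_ne _ hk)
  have h2 : t * fn H v (kp κ r *ᵥ x) = c ^ d * fn H v x := by
    have h3 : t * fn H v (kp κ r *ᵥ x) =
        (kp κ r *ᵥ fun w => conj (v w)) ⬝ᵥ (kp κ (cQ H.Qr) *ᵥ (kp κ r *ᵥ x)) := by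
      rw [hv, smul_dotProduct, fn_apply, smul_eq_mul]
    have h4 : (kp κ r *ᵥ fun w => conj (v w)) ⬝ᵥ (kp κ (cQ H.Qr) *ᵥ (kp κ r *ᵥ x)) =
        (fun w => conj (v w)) ⬝ᵥ (((kp κ r)ᵀ * kp κ (cQ H.Qr) * kp κ r) *ᵥ x) := by
      rw [← mulVec_mulVec, ← mulVec_mulVec, mulVec_transpose, dotProduct_comm,
        dotProduct_mulVec, dotProduct_comm]
    rw [h3, h4, h1, ← mulVec_mulVec, fn_apply, dotProduct, dotProduct, Finset.mul_sum]
    refine Finset.sum_congr rfl fun w _ => ?_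
    rw [mulVec_diagonal]
    by_cases hw : v w = 0
    · rw [hw, map_zero, zero_mul, zero_mul, mul_zero]
    · rw [hd w hw]
      ring
  rw [div_mul_eq_mul_div, eq_div_iff ht, mul_comm, h2]

/-- **The semi-invariant functional.** -/
theorem exists_fn {deg : ι → ℕ} {Γ : Type} [Group Γ] {c : Γ → ℂ} (hc : ∀ g, c g ≠ 0)
    {r : Γ → Matrix ι ι ℂ} {s : Γ → Matrix β β ℂ}
    (hr : ∀ g, (r g)ᵀ * cQ H.Qr * r g = Matrix.diagonal (fun i => c g ^ deg i) * cQ H.Qr)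
    {B : Matrix β β ℂ} {Q : Set ((κ → ι) × β → ℚ)} {j : ℕ}
    (hQ : ∀ q ∈ Q, (kp κ (H.l Complex.I) ⊗ₖ B) *ᵥ cr q = cr q)
    (hG : ∀ q ∈ Q, ∃ D : Subgroup Γ, D.FiniteIndex ∧ ∀ g ∈ D,
      (kp κ (r g) ⊗ₖ s g) *ᵥ cr q = c g ^ j • cr q)
    {v : (κ → ι) → ℂ} {u : β → ℂ} (hv : v ≠ 0) (hu : u ≠ 0) {d : ℕ}
    (hd : ∀ w, v w ≠ 0 → ∑ i, deg (w i) = d) (hz : tp v u ∈ Submodule.span ℂ (cr '' Q)) :
    ∃ (f : ((κ → ι) → ℂ) →ₗ[ℂ] ℂ) (D : Subgroup Γ), D.FiniteIndex ∧ f v ≠ 0 ∧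
      ∀ g ∈ D, ∃ m : ℂ, ∀ x, f (kp κ (r g) *ᵥ x) = m * f x := by
  classical
  obtain ⟨t₀, -, ht₀⟩ := rank_one (A := kp κ (H.l Complex.I)) (B := B) one_ne_zero hv hu
    (eig_span hz _ 1 fun q hq => by rw [hQ q hq, one_smul])
  -- a finite set of rational arrays
  obtain ⟨Q', hQ', hfin, hz'⟩ : ∃ Q' ⊆ Q, Q'.Finite ∧ tp v u ∈ Submodule.span ℂ (cr '' Q') := by
    obtain ⟨S, hS, hzS⟩ := Submodule.mem_span_finite_of_mem_span hz
    obtain ⟨S', hS', hS''⟩ := Set.subset_image_iff.1 hS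
    have hinj : Function.Injective (cr : ((κ → ι) × β → ℚ) → ((κ → ι) × β → ℂ)) := by
      intro a b hab
      funext i
      have h1 : (a i : ℂ) = (b i : ℂ) := congrFun hab i
      exact_mod_cast h1
    refine ⟨S', hS', ?_, by rw [hS'']; exact hzS⟩
    apply Set.Finite.of_finite_image _ hinj.injOn
    rw [hS'']
    exact S.finite_toSet
  have : Finite Q' := hfin
  choose D hD1 hD2 using fun q : Q' => hG q (hQ' q.2)
  have hDf : (⨅ q, D q).FiniteIndex := Subgroup.finiteIndex_iInf hD1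
  refine ⟨fn H v, ⨅ q, D q, hDf, fn_ne H hv ht₀, fun g hg => ?_⟩
  have h1 : (kp κ (r g) ⊗ₖ s g) *ᵥ (fun i => conj (tp v u i)) =
      c g ^ j • fun i => conj (tp v u i) :=
    eig_span (conj_span hz') _ _ fun q hq => hD2 ⟨q, hq⟩ g ((Subgroup.mem_iInf.1 hg) ⟨q, hq⟩)
  have h2 : (fun i => conj (tp v u i)) = tp (fun w => conj (v w)) fun a => conj (u a) := by
    funext i
    exact map_mul _ _ _
  rw [h2] at h1
  have hcv : (fun w => conj (v w)) ≠ 0 := by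
    obtain ⟨w, hw⟩ := Function.ne_iff.1 hv
    refine Function.ne_iff.2 ⟨w, ?_⟩
    rw [Pi.zero_apply] at hw ⊢
    exact (map_ne_zero (starRingEnd ℂ)).2 hw
  have hcu : (fun w => conj (u w)) ≠ 0 := by
    obtain ⟨w, hw⟩ := Function.ne_iff.1 hu
    refine Function.ne_iff.2 ⟨w, ?_⟩
    rw [Pi.zero_apply] at hw ⊢
    exact (map_ne_zero (starRingEnd ℂ)).2 hw
  obtain ⟨t, ht, ht'⟩ := rank_one (pow_ne_zero j (hc g)) hcv hcu h1
  exact ⟨_, fun x => fn_semi H (hr g) hd ht ht' x⟩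

end Main

end Pool.Agent.N211.MO
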