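import Pool.Agent.N211.MO.Lin
import Pool.Agent.N211.MO.Fun
import Pool.Agent.N211.BT.TG5

/-!
# Semisimplicity of the arrays from functionals on the lines
-/

set_option linter.unusedSectionVars false

namespace Pool.Agent.N211.MO

open Module Matrix
open Pool.Agent.N996.BP (kp kp_apply kp_mul kp_one kp_rei kp_tens tens tens_elim rei cQ HData kp_map)
open Pool.Agent.N211.BT (homS IsSemisimpleOn)

section Minors

variable {E : Type*} [Field E] {N : Type*} [Fintype N] [DecidableEq N] {r : ℕ}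

lemma Dt_mulVec (A : Matrix N N E) (y : Fin r → N → E) :
    Dt E (fun a => A *ᵥ y a) = kp (Fin r) A *ᵥ Dt E y := by
  funext s
  have h := sum_Dt (fun b => A (s b)) y
  rw [mulVec, dotProduct]
  simp only [kp_apply]
  rw [h]
  rfl

end Minors

section Cu

variable {E : Type*} [Field E] {ι κ : Type} [Fintype ι] [DecidableEq ι] [Fintype κ]
  [DecidableEq κ] {r : ℕ}

variable (E ι κ r) in
/-- Currying of the indices. -/
def cu : ((Fin r → κ → ι) → E) →ₗ[E] ((Fin r × κ → ι) → E) :=
  LinearMap.funLeft E E fun x : Fin r × κ → ι => fun i k => x (i, k)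

lemma cu_apply (a : (Fin r → κ → ι) → E) (x : Fin r × κ → ι) :
    cu E ι κ r a x = a fun i k => x (i, k) := rfl

lemma cu_ne {a : (Fin r → κ → ι) → E} (ha : a ≠ 0) : cu E ι κ r a ≠ 0 := by
  obtain ⟨x, hx⟩ := Function.ne_iff.1 ha
  exact Function.ne_iff.2 ⟨fun p => x p.1 p.2, hx⟩

lemma kp_cu (R : Matrix ι ι E) (a : (Fin r → κ → ι) → E) :
    kp (Fin r × κ) R *ᵥ cu E ι κ r a = cu E ι κ r (kp (Fin r) (kp κ R) *ᵥ a) := by
  funext x
  rw [cu_apply, mulVec, mulVec, dotProduct, dotProduct,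
    ← Equiv.sum_comp (Equiv.curry (Fin r) κ ι)]
  refine Finset.sum_congr rfl fun y _ => ?_
  rw [kp_apply, kp_apply, Fintype.prod_prod_type, cu_apply]
  rfl

end Cu

section Lines

variable {E : Type} [Field E] {ι : Type} [Fintype ι] [DecidableEq ι] {Γ : Type} [Group Γ]

/-- Every stable line in the arrays with indices in `κ` has a semi-invariant functional. -/
def LineFn (r : Γ → Matrix ι ι E) (deg : ι → ℕ) (Δ : Subgroup Γ) (κ : Type) [Fintype κ]
    [DecidableEq κ] : Prop :=
  ∀ (c : Γ → E) (v : (κ → ι) → E) (d : ℕ), v ≠ 0 → (∀ w, v w ≠ 0 → ∑ i, deg (w i) = d) →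
    (∀ g ∈ Δ, kp κ (r g) *ᵥ v = c g • v) →
    ∃ (φ : ((κ → ι) → E) →ₗ[E] E) (D : Subgroup Γ), D.FiniteIndex ∧ φ v ≠ 0 ∧
      ∀ g ∈ D, g ∈ Δ → ∀ x, φ (kp κ (r g) *ᵥ x) = c g * φ x

variable {r : Γ → Matrix ι ι E} {deg : ι → ℕ} {Δ : Subgroup Γ} {κ l : Type} [Fintype κ]
    [DecidableEq κ] [Fintype l] [DecidableEq l]

lemma LineFn.rei (e : κ ≃ l) (h : LineFn r deg Δ l) : LineFn r deg Δ κ := by
  intro c v d hv hd hc
  have h1 : ∀ i : κ → ι, (i ∘ e.symm) ∘ e = i := fun i => by ext; simp
  obtain ⟨φ, D, hD, hφ, hs⟩ := h c (N996.BP.rei e v) d (fun h0 => hv (by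
    funext i
    have h2 := congrFun h0 (i ∘ e.symm)
    rw [N996.BP.rei, h1] at h2
    exact h2)) (fun w hw => by
      rw [← hd _ hw]
      exact (Equiv.sum_comp e fun i => deg (w i)).symm) (fun g hg => by
      rw [kp_rei, hc g hg]
      rfl)
  refine ⟨φ ∘ₗ (LinearMap.funLeft E E fun i : l → ι => i ∘ e), D, hD, hφ, fun g hg hg' x => ?_⟩
  have h3 := hs g hg hg' (N996.BP.rei e x)
  rw [kp_rei] at h3
  exact h3

/-- The array of the unit. -/
def un (E : Type) [Field E] (l : Type) {ι : Type} [Fintype l] [DecidableEq ι] (o : ι) :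
    (l → ι) → E := fun i => if i = fun _ => o then 1 else 0

lemma kp_un {o : ι} {R : Matrix ι ι E} (hR : ∀ i, R i o = if i = o then 1 else 0) :
    kp l R *ᵥ un E l o = un E l o := by
  funext i
  rw [mulVec, dotProduct, Finset.sum_eq_single fun _ => o]
  · rw [un, if_pos rfl, mul_one, kp_apply, un]
    by_cases h : i = fun _ => o
    · rw [if_pos h, h]
      exact Finset.prod_eq_one fun k _ => by rw [hR, if_pos rfl]
    · rw [if_neg h]
      obtain ⟨k, hk⟩ := Function.ne_iff.1 h
      exact Finset.prod_eq_zero (Finset.mem_univ k) (by rw [hR, if_neg hk])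
  · intro j _ hj
    rw [un, if_neg hj, mul_zero]
  · intro h
    exact absurd (Finset.mem_univ _) h

lemma LineFn.sum {o : ι} (ho : deg o = 0) (hr : ∀ g i, r g i o = if i = o then 1 else 0)
    (h : LineFn r deg Δ (κ ⊕ l)) : LineFn r deg Δ κ := by
  intro c v d hv hd hc
  obtain ⟨φ, D, hD, hφ, hs⟩ := h c (tens v (un E l o)) d (fun h0 => hv (by
    funext i
    have h2 := congrFun h0 (Sum.elim i fun _ => o)
    rw [tens_elim, un, if_pos rfl, mul_one] at h2
    exact h2)) (fun w hw => by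
      obtain ⟨i, j, rfl⟩ : ∃ i j, w = Sum.elim i j := ⟨w ∘ Sum.inl, w ∘ Sum.inr, by simp⟩
      rw [tens_elim, un] at hw
      have h3 : j = fun _ => o := by
        by_contra h3
        rw [if_neg h3, mul_zero] at hw
        exact hw rfl
      rw [Fintype.sum_sum_type, ← hd i (left_ne_zero_of_mul hw), h3]
      simp [ho]) (fun g hg => by
      rw [kp_tens, hc g hg, kp_un (hr g)]
      funext w
      simp [tens, mul_assoc])
  let ψ : ((κ → ι) → E) →ₗ[E] ((κ ⊕ l → ι) → E) :=
    { toFun := fun x => tens x (un E l o)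
      map_add' := fun x y => by funext w; simp [tens, add_mul]
      map_smul' := fun a x => by funext w; simp [tens, mul_assoc] }
  refine ⟨φ ∘ₗ ψ, D, hD, hφ, fun g hg hg' x => ?_⟩
  have h3 := hs g hg hg' (tens x (un E l o))
  rw [kp_tens, kp_un (hr g)] at h3
  exact h3

lemma LineFn.of_card {o : ι} (ho : deg o = 0) (hr : ∀ g i, r g i o = if i = o then 1 else 0)
    (h : LineFn r deg Δ l) (hcard : Fintype.card κ ≤ Fintype.card l) : LineFn r deg Δ κ := by
  have e : κ ⊕ Fin (Fintype.card l - Fintype.card κ) ≃ l :=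
    Fintype.equivOfCardEq (by simp; omega)
  exact (h.rei e).sum ho hr

variable (r κ) in
/-- The representation on the arrays. -/
noncomputable def rp (h1 : r 1 = 1) (hm : ∀ g h, r (g * h) = r g * r h) :
    Γ →* Module.End E ((κ → ι) → E) where
  toFun g := Matrix.toLin' (kp κ (r g))
  map_one' := by rw [h1, kp_one, Matrix.toLin'_one]; rfl
  map_mul' g h := by rw [hm, kp_mul, Matrix.toLin'_mul]; rfl

/-- **Semisimplicity of the arrays from functionals on the lines.** -/
theorem ss_coord [CharZero E] (h1 : r 1 = 1) (hm : ∀ g h, r (g * h) = r g * r h)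
    (hdeg : ∀ g i j, r g i j ≠ 0 → deg i = deg j) {i b : ℕ}
    (hb : finrank E (homS E deg κ i) ≤ b)
    (hL : ∀ n, n + 1 ≤ b → LineFn r deg Δ (Fin (n + 1) × κ)) :
    IsSemisimpleOn (rp r κ h1 hm) Δ (homS E deg κ i) := by
  classical
  refine ss_of_forms _ Δ _ ?_ ?_
  · intro g _ x hx w hw
    have h2 : ∃ v, kp κ (r g) w v * x v ≠ 0 := by
      by_contra h
      push Not at h
      exact hw (Finset.sum_eq_zero fun v _ => h v)
    obtain ⟨v, hv⟩ := h2
    rw [← hx v (right_ne_zero_of_mul hv)]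
    refine Finset.sum_congr rfl fun k _ => ?_
    have h3 := left_ne_zero_of_mul hv
    rw [kp_apply] at h3
    exact hdeg g _ _ (Finset.prod_ne_zero_iff.1 h3 k (Finset.mem_univ k))
  · intro W hWP hW n w
    have hn : n + 1 ≤ b := by
      refine le_trans ?_ hb
      have h2 := Submodule.finrank_mono hWP
      rw [finrank_eq_card_basis w, Fintype.card_fin] at h2
      exact h2
    obtain ⟨y, hy⟩ : ∃ y : Fin (n + 1) → (κ → ι) → E, y = fun a => (w a : (κ → ι) → E) :=
      ⟨_, rfl⟩
    have hind : LinearIndependent E y := by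
      rw [hy]
      exact w.linearIndependent.map' W.subtype (Submodule.ker_subtype W)
    have hne : Dt E y ≠ 0 := Dt_ne hind
    -- the determinant of the action on `W`
    obtain ⟨c, hc⟩ : ∃ c : Γ → E, ∀ g ∈ Δ, kp (Fin (n + 1)) (kp κ (r g)) *ᵥ Dt E y =
        c g • Dt E y := by
      have h2 : ∀ g, ∃ c : E, g ∈ Δ → kp (Fin (n + 1)) (kp κ (r g)) *ᵥ Dt E y = c • Dt E y := by
        intro g
        by_cases hg : g ∈ Δ
        · refine ⟨w.det fun a => ⟨rp r κ h1 hm g (w a), hW g hg _ (w a).2⟩, fun _ => ?_⟩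
          rw [← Dt_mulVec]
          funext s
          obtain ⟨f, hf⟩ : ∃ f : ((κ → ι) → E) [⋀^Fin (n + 1)]→ₗ[E] E, ∀ z, f z = Dt E z s :=
            ⟨(Matrix.detRowAlternating (n := Fin (n + 1)) (R := E)).compLinearMap
              (LinearMap.funLeft E E s), fun z => rfl⟩
          have h3 := AlternatingMap.eq_smul_basis_det w (f.compLinearMap W.subtype)
          have h4 := congrArg (fun F : W [⋀^Fin (n + 1)]→ₗ[E] E =>
            F fun a => ⟨rp r κ h1 hm g (w a), hW g hg _ (w a).2⟩) h3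
          have h5 : (f.compLinearMap W.subtype) ⇑w = Dt E y s := by
            rw [hy]
            exact hf _
          have h6 : (f.compLinearMap W.subtype) (fun a => ⟨rp r κ h1 hm g (w a),
              hW g hg _ (w a).2⟩) = Dt E (fun a => kp κ (r g) *ᵥ y a) s := by
            rw [hy]
            exact hf _
          rw [Pi.smul_apply, smul_eq_mul, mul_comm, ← h5, ← h6]
          exact h4
        · exact ⟨0, fun h => absurd h hg⟩
      choose c hc using h2
      exact ⟨c, fun g hg => hc g hg⟩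
    have hcu : ∀ g ∈ Δ, kp (Fin (n + 1) × κ) (r g) *ᵥ cu E ι κ (n + 1) (Dt E y) =
        c g • cu E ι κ (n + 1) (Dt E y) := by
      intro g hg
      rw [kp_cu, hc g hg, map_smul]
    have hd : ∀ x, cu E ι κ (n + 1) (Dt E y) x ≠ 0 → ∑ p, deg (x p) = (n + 1) * i := by
      intro x hx
      rw [cu_apply] at hx
      have h2 : ∀ a, ∑ k, deg (x (a, k)) = i := by
        intro a
        by_contra hne'
        apply hx
        rw [Dt, ← Matrix.det_transpose]
        apply Matrix.det_eq_zero_of_row_eq_zero a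
        intro b
        by_contra h3
        apply hne'
        have h4 : y b ∈ homS E deg κ i := by
          rw [hy]
          exact hWP (w b).2
        exact h4 _ h3
      rw [Fintype.sum_prod_type, Finset.sum_congr rfl fun a _ => h2 a]
      simp
    obtain ⟨φ, D, hD, hφ, hs⟩ := hL n hn c _ _ (cu_ne hne) hd hcu
    obtain ⟨φ', hφ', hs'⟩ := exists_avg (rp r (Fin (n + 1) × κ) h1 hm) Δ D hD (cu_ne hne) hcu φ hφ
      (fun g hg hg' x => hs g hg hg' x)
    refine ⟨altOf (φ' ∘ₗ cu E ι κ (n + 1)), ?_, fun g hg => ⟨c g, fun z => ?_⟩⟩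
    · rw [altOf_apply, ← hy]
      exact hφ'
    · rw [altOf_apply, altOf_apply]
      have h2 : Dt E (fun a => rp r κ h1 hm g (z a)) =
          kp (Fin (n + 1)) (kp κ (r g)) *ᵥ Dt E z := Dt_mulVec (kp κ (r g)) z
      rw [h2, LinearMap.comp_apply, LinearMap.comp_apply, ← kp_cu]
      exact hs' g hg _

end Lines

end Pool.Agent.N211.MO
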