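import Pool.Agent.N211.MO.Fun
import Pool.Agent.N996.BP.Geo1
import Pool.Agent.N996.BP.Geo2

/-!
# The Weil operator on the products `X ^ (N + 1) × A`
-/

set_option linter.unusedSectionVars false

open CategoryTheory AlgebraicGeometry TensorProduct

universe u

namespace Pool.Agent.N211.MO

open Module Matrix
open Pool.Agent.H914 Pool.Agent.H914.VarClass Pool.Agent.H914.VarClass.Obj
  Pool.Agent.H914.WeilCohomology
open Pool.Agent.Y121.AH
open Pool.Agent.Y133.Half (pw wb)
open Pool.Agent.N996.BP (kp kp_apply cQ HData mG)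
open Pool.Agent.N996.BP.Geo (cc lop lop_mul lop_map lop_hodge IsMat lop_wb Fx em_sum)
open scoped Kronecker

variable {k : Type u} [Field k] {𝒱 : VarClass k} {ops : CycleOps 𝒱}

section Basis

variable {W : WeilCohomology.{u, 0} ops} {Y A : 𝒱.Obj} {N β : Type} (b : Basis N W.K (W.H Y))
  (f : Basis β W.K (W.H A))

/-- The basis of the cohomology of the product. -/
noncomputable def pb : Basis (N × β) W.K (W.H (Y.prod A)) :=
  (b.tensorProduct f).map (kappa W Y A)

lemma pb_apply (p : N × β) : pb b f p = W.map (fst Y A) (b p.1) * W.map (snd Y A) (f p.2) := by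
  have h : pb b f p = kappa W Y A ((b.tensorProduct f) p) := rfl
  rw [h, Basis.tensorProduct_apply']
  exact kappa_tmul _ _

end Basis

section Weil

variable {T : HodgeTheory ops} {X A : 𝒱.Obj} {N : ℕ}
  {ι : Type} [Fintype ι] [DecidableEq ι] (e : Basis ι T.W.K (T.W.H X))
  {β : Type} [Fintype β] [DecidableEq β] (f : Basis β T.W.K (T.W.H A))
  {H : HData ι} {hF : DirectSum.IsInternal (Fx T X)}

lemma isMat_exists (t : ℂ) : ∃ B : Matrix β β ℂ, IsMat T t A f B := by
  refine ⟨Matrix.of fun a b => (f.baseChange ℂ).repr (lop T t A (em T.W ℂ (f b))) a,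
    fun b => ?_⟩
  have h := (f.baseChange ℂ).sum_repr (lop T t A (em T.W ℂ (f b)))
  refine h.symm.trans (Finset.sum_congr rfl fun a _ => ?_)
  rw [Basis.baseChange_apply]
  rfl

lemma isMat_pb (hH : ∀ t : ℂ, t ≠ 0 → H.l t = mG hF e (fun k => t ^ k)) {t : ℂ} (ht : t ≠ 0)
    {B : Matrix β β ℂ} (hB : IsMat T t A f B) :
    IsMat T t ((pw X N).prod A) (pb (wb e N) f) (kp (Fin (N + 1)) (H.l t) ⊗ₖ B) := by
  rintro ⟨w, a⟩
  rw [pb_apply, em_mul, ← em_map, ← em_map]
  refine (lop_mul ht _ _).trans ?_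
  rw [lop_map, lop_map, lop_wb e hH ht N w, hB a, map_sum, map_sum, Finset.sum_mul_sum,
    Fintype.sum_prod_type]
  refine Finset.sum_congr rfl fun v _ => Finset.sum_congr rfl fun b _ => ?_
  rw [map_smul, map_smul, smul_mul_smul_comm, em_map, em_map, ← em_mul, pb_apply]
  rfl

/-- Hodge classes are fixed by the Weil operator in coordinates. -/
lemma weil_fix {Y : 𝒱.Obj} {M : Type} [Fintype M] [DecidableEq M] (b : Basis M T.W.K (T.W.H Y))
    {t : ℂ} {C : Matrix M M ℂ} (hC : IsMat T t Y b C) {j : ℕ} {q : M → ℚ}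
    (hq : IsHodge T Y j (∑ p, ((q p : ℚ) : T.W.K) • b p)) : C *ᵥ cr q = cr q := by
  have h1 := lop_hodge (t := t) hq
  have h2 : ∀ z : M → ℂ, ((b.baseChange ℂ).equivFun.symm z : ℂ ⊗[T.W.K] T.W.H Y) =
      (∑ p, cc T (z p) • em T.W ℂ (b p) : (CW T).H Y) := by
    intro z
    rw [Basis.equivFun_symm_apply]
    refine Finset.sum_congr rfl fun w _ => ?_
    rw [Basis.baseChange_apply]
    rfl
  have h3 : em T.W ℂ (∑ p, ((q p : ℚ) : T.W.K) • b p) =
      (∑ p, cc T (cr q p) • em T.W ℂ (b p) : (CW T).H Y) := by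
    rw [em_sum]
    refine Finset.sum_congr rfl fun w _ => ?_
    rw [em_smul, ex_rat]
    rfl
  have h4 : lop T t Y (∑ p, cc T (cr q p) • em T.W ℂ (b p) : (CW T).H Y) =
      ∑ p, cc T ((C *ᵥ cr q) p) • em T.W ℂ (b p) := by
    rw [map_sum]
    have h5 : ∀ p, lop T t Y (cc T (cr q p) • em T.W ℂ (b p)) =
        ∑ p', cc T (C p' p * cr q p) • em T.W ℂ (b p') := by
      intro p
      rw [map_smul, hC p, Finset.smul_sum]
      refine Finset.sum_congr rfl fun v _ => ?_
      rw [smul_smul, mul_comm]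
      rfl
    rw [Finset.sum_congr rfl fun p _ => h5 p, Finset.sum_comm]
    refine Finset.sum_congr rfl fun v _ => ?_
    rw [← Finset.sum_smul]
    rfl
  apply (b.baseChange ℂ).equivFun.symm.injective
  refine (h2 _).trans (h4.symm.trans (Eq.trans ?_ (h2 _).symm))
  rw [← h3]
  exact h1

end Weil

end Pool.Agent.N211.MO
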