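import Pool.Agent.N211.MO.Form
import Pool.Agent.N211.MO.Weil
import Pool.Agent.N211.TP2.Coord
import Pool.Agent.H914R2.GFrob

/-!
# The products `X ^ (N + 1) × A` in coordinates
-/

set_option linter.unusedSectionVars false

open CategoryTheory AlgebraicGeometry TensorProduct

universe u

namespace Pool.Agent.N211.MO

open Module Matrix
open Pool.Agent.H914 Pool.Agent.H914.VarClass Pool.Agent.H914.VarClass.Obj
  Pool.Agent.H914.WeilCohomology
open Pool.Agent.Y121.AHS
open Pool.Agent.Y133.Half (pw wb)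
open Pool.Agent.N996.BP (kp kp_apply cQ HData mG)
open Pool.Agent.N211.BT (GaloisAction bL bL_apply mapB mapB_apply mulB mulB_apply phi phi_act
  sum_phi rE rC emL_map emL_mul emL_add emL_smul emL_sum act_wb)
open scoped Kronecker

variable {k : Type u} [Field k] {𝒱 : VarClass k} {ops : CycleOps 𝒱}

variable {T : HodgeTheory ops} {X A : 𝒱.Obj} {E : Type} [Field E] [Algebra T.W.K E]
  {Γ : Type} [Group Γ] (G : GaloisAction T E Γ X) {N : ℕ}
  {ι : Type} [Fintype ι] [DecidableEq ι] (e : Basis ι T.W.K (T.W.H X))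
  {β : Type} [Fintype β] [DecidableEq β] (f : Basis β T.W.K (T.W.H A))

/-- The external product of two classes. -/
noncomputable def xL {Y A : 𝒱.Obj} (x : HL T.W E Y) (y : HL T.W E A) : HL T.W E (Y.prod A) :=
  mulB T.W E _ (mapB E (fst Y A) x) (mapB E (snd Y A) y)

/-- The coordinates of the classes on the product. -/
noncomputable def phP (E : Type) [Field E] [Algebra T.W.K E] (N : ℕ) :
    HL T.W E ((pw X N).prod A) ≃ₗ[E] ((Fin (N + 1) → ι) × β → E) :=
  (bL E (pb (wb e N) f)).equivFun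

/-- The coordinates of the classes on `A`. -/
noncomputable def phA (E : Type) [Field E] [Algebra T.W.K E] : HL T.W E A ≃ₗ[E] (β → E) :=
  (bL E f).equivFun

lemma emL_pb (p : (Fin (N + 1) → ι) × β) : emL T.W E (pb (wb e N) f p) =
    xL (emL T.W E (wb e N p.1)) (emL T.W E (f p.2)) := by
  rw [pb_apply, emL_mul, emL_map, emL_map]
  rfl

lemma phP_symm (N : ℕ) (c : (Fin (N + 1) → ι) × β → E) :
    (phP e f E N).symm c = ∑ w, c w • emL T.W E (pb (wb e N) f w) := by
  rw [phP, Basis.equivFun_symm_apply]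
  exact Finset.sum_congr rfl fun w _ => by rw [bL_apply]

lemma sum_phA (y : HL T.W E A) : ∑ a, phA f E y a • emL T.W E (f a) = y := by
  have h := (bL E f).sum_equivFun y
  refine Eq.trans ?_ h
  exact Finset.sum_congr rfl fun a _ => by rw [bL_apply]; rfl

lemma phP_xL (x : HL T.W E (pw X N)) (y : HL T.W E A) :
    phP e f E N (xL x y) = tp (phi e E N x) (phA f E y) := by
  rw [← LinearEquiv.eq_symm_apply, phP_symm, Fintype.sum_prod_type]
  conv_lhs => rw [← sum_phi e N x, ← sum_phA f y]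
  rw [xL, map_sum, map_sum, map_sum, LinearMap.sum_apply]
  refine Finset.sum_congr rfl fun w _ => ?_
  rw [map_sum]
  refine Finset.sum_congr rfl fun a _ => ?_
  rw [map_smul, map_smul, map_smul, map_smul, LinearMap.smul_apply, smul_smul, emL_pb, mul_comm]
  rfl

/-- The rational combination of the basis. -/
noncomputable def clP (N : ℕ) (q : (Fin (N + 1) → ι) × β → ℚ) : T.W.H ((pw X N).prod A) :=
  ∑ p, ((q p : ℚ) : T.W.K) • pb (wb e N) f p

lemma exists_clP (c : T.W.H ((pw X N).prod A)) : ∃ q, clP e f N q = c := by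
  choose q hq using fun p => T.rat ((pb (wb e N) f).repr c p)
  refine ⟨q, ?_⟩
  rw [clP]
  simp only [hq]
  exact (pb (wb e N) f).sum_repr c

lemma phP_clP (q : (Fin (N + 1) → ι) × β → ℚ) :
    phP e f E N (emL T.W E (clP e f N q)) = fun p => (q p : E) := by
  rw [← LinearEquiv.eq_symm_apply, phP_symm, clP, emL_sum]
  refine Finset.sum_congr rfl fun w _ => ?_
  rw [emL_smul, map_ratCast]

section Ops

variable {σA : Γ → (HL T.W E A →ₗ[E] HL T.W E A)}
  {σP : Γ → (HL T.W E ((pw X N).prod A) →ₗ[E] HL T.W E ((pw X N).prod A))}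

/-- The matrices of the action on the cohomology of `A`. -/
noncomputable def sE (σA : Γ → (HL T.W E A →ₗ[E] HL T.W E A)) (g : Γ) : Matrix β β E :=
  Matrix.of fun a b => phA f E (σA g (emL T.W E (f b))) a

lemma act_A (g : Γ) (b : β) : σA g (emL T.W E (f b)) =
    ∑ a, sE f σA g a b • (emL T.W E (f a) : HL T.W E A) :=
  (sum_phA f (σA g (emL T.W E (f b)))).symm

lemma phA_act (g : Γ) (y : HL T.W E A) : phA f E (σA g y) = sE f σA g *ᵥ phA f E y := by
  conv_lhs => rw [← sum_phA f y]
  rw [map_sum, map_sum]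
  funext a
  rw [Finset.sum_apply, mulVec, dotProduct]
  refine Finset.sum_congr rfl fun b _ => ?_
  rw [map_smul, map_smul, Pi.smul_apply, smul_eq_mul, mul_comm]
  rfl

/-- The action in coordinates. -/
lemma phP_act (hP : ∀ g x y, σP g (xL x y) = xL (G.ρ N g x) (σA g y)) (g : Γ)
    (z : HL T.W E ((pw X N).prod A)) :
    phP e f E N (σP g z) = (kp (Fin (N + 1)) (rE G e g) ⊗ₖ sE f σA g) *ᵥ phP e f E N z := by
  have h1 : (phP e f E N).toLinearMap ∘ₗ (σP g) =
      (Matrix.toLin' (kp (Fin (N + 1)) (rE G e g) ⊗ₖ sE f σA g)) ∘ₗ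
        (phP e f E N).toLinearMap := by
    refine (bL E (pb (wb e N) f)).ext fun p => ?_
    rw [bL_apply, emL_pb, LinearMap.comp_apply, LinearMap.comp_apply, hP,
      LinearEquiv.coe_coe, phP_xL, phP_xL, Matrix.toLin'_apply, kron_tp, phi_act, phA_act]
  exact LinearMap.congr_fun h1 z

end Ops

end Pool.Agent.N211.MO
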