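import Pool.Agent.N211.MO.Alt
import Pool.Agent.N211.BT.Avg

/-!
# Semisimplicity from semi-invariant alternating forms
-/

set_option linter.unusedSectionVars false

namespace Pool.Agent.N211.MO

open Module
open Pool.Agent.N211.BT (IsSemisimpleOn avg avg_apply avg_inv apply_out card_ne)

section Avg

variable {E V : Type} [Field E] [CharZero E] [AddCommGroup V] [Module E V] {Γ : Type} [Group Γ]

/-- Averages of functionals. -/
theorem exists_avg (ρ : Γ →* Module.End E V) (Δ D : Subgroup Γ) (hD : D.FiniteIndex) {v : V}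
    (hv : v ≠ 0) {c : Γ → E} (hc : ∀ g ∈ Δ, ρ g v = c g • v) (φ : Module.Dual E V) (hφ : φ v ≠ 0)
    (hs : ∀ g ∈ D, g ∈ Δ → ∀ x, φ (ρ g x) = c g * φ x) :
    ∃ φ' : Module.Dual E V, φ' v ≠ 0 ∧ ∀ g ∈ Δ, ∀ x, φ' (ρ g x) = c g * φ' x := by
  classical
  have hinj : ∀ {a b : E}, a • v = b • v → a = b := fun {a b} h => smul_left_injective E hv h
  have h1 : c 1 = 1 := hinj (by rw [← hc 1 Δ.one_mem, map_one, Module.End.one_apply, one_smul])
  have hmul : ∀ g ∈ Δ, ∀ h ∈ Δ, c (g * h) = c g * c h := by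
    intro g hg h hh
    apply hinj
    rw [← hc _ (Δ.mul_mem hg hh), map_mul, Module.End.mul_apply, hc h hh, map_smul, hc g hg,
      smul_smul, mul_comm]
  have hinv : ∀ g ∈ Δ, c g * c g⁻¹ = 1 := by
    intro g hg
    rw [← hmul g hg _ (Δ.inv_mem hg), mul_inv_cancel, h1]
  obtain ⟨τ, hτ⟩ : ∃ τ : Δ →* Module.End E (Module.Dual E V), ∀ (g : Δ) (f : Module.Dual E V)
      (x : V), τ g f x = c g * f (ρ (g : Γ)⁻¹ x) := by
    refine ⟨{ toFun := fun g => (c g : E) • (Module.Dual.transpose (R := E) (ρ (g : Γ)⁻¹))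
              map_one' := ?_, map_mul' := ?_ }, fun g f x => rfl⟩
    · refine LinearMap.ext fun f => LinearMap.ext fun x => ?_
      change c ((1 : Δ) : Γ) * f (ρ ((1 : Δ) : Γ)⁻¹ x) = f x
      rw [OneMemClass.coe_one, inv_one, map_one, h1, one_mul, Module.End.one_apply]
    · intro g h
      refine LinearMap.ext fun f => LinearMap.ext fun x => ?_
      change c ((g * h : Δ) : Γ) * f (ρ ((g * h : Δ) : Γ)⁻¹ x) =
        c g * (c h * f (ρ (h : Γ)⁻¹ (ρ (g : Γ)⁻¹ x)))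
      rw [Subgroup.coe_mul, hmul g g.2 h h.2, mul_inv_rev, map_mul, Module.End.mul_apply,
        mul_assoc]
  let K : Subgroup Δ := D.subgroupOf Δ
  have hK : K.FiniteIndex := by
    change (D.subgroupOf Δ).FiniteIndex
    infer_instance
  let _ : Fintype (Δ ⧸ K) := Fintype.ofFinite _
  have hfix : ∀ g ∈ K, τ g φ = φ := by
    intro g hg
    refine LinearMap.ext fun x => ?_
    have hg' : (g : Γ) ∈ D := hg
    have h2 := hs (g : Γ)⁻¹ (D.inv_mem hg') (Δ.inv_mem g.2) x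
    rw [hτ, h2, ← mul_assoc, hinv _ g.2, one_mul]
  have h3 := avg_inv τ K hfix
  refine ⟨avg τ K φ, ?_, ?_⟩
  · rw [avg_apply, LinearMap.smul_apply, LinearMap.sum_apply]
    have h4 : ∀ q : Δ ⧸ K, τ q.out φ v = φ v := by
      intro q
      rw [hτ, hc _ (Δ.inv_mem q.out.2), map_smul, smul_eq_mul, ← mul_assoc, hinv _ q.out.2,
        one_mul]
    rw [Finset.sum_congr rfl fun q _ => h4 q, Finset.sum_const, Finset.card_univ,
      ← Nat.cast_smul_eq_nsmul E, smul_smul, inv_mul_cancel₀ (card_ne K), one_smul]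
    exact hφ
  · intro g hg x
    have h4 := congrArg (fun f : Module.Dual E V => f (ρ g x)) (h3 ⟨g, hg⟩)
    have h5 : ρ g⁻¹ (ρ g x) = x := by
      rw [← Module.End.mul_apply, ← map_mul, inv_mul_cancel, map_one, Module.End.one_apply]
    have h6 : (avg τ K φ) (ρ g x) = c g * (avg τ K φ) (ρ g⁻¹ (ρ g x)) :=
      h4.symm.trans (hτ ⟨g, hg⟩ (avg τ K φ) (ρ g x))
    rw [h5] at h6
    exact h6

end Avg

section SS

variable {E U : Type} [Field E] [AddCommGroup U] [Module E U] [FiniteDimensional E U]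
  {Γ : Type} [Group Γ]

lemma rho_inv (ρ : Γ →* Module.End E U) (g : Γ) (x : U) : ρ g (ρ g⁻¹ x) = x := by
  rw [← Module.End.mul_apply, ← map_mul, mul_inv_cancel, map_one, Module.End.one_apply]

/-- **Semisimplicity from semi-invariant alternating forms.** -/
theorem ss_of_forms (ρ : Γ →* Module.End E U) (Δ : Subgroup Γ) (P : Submodule E U)
    (hP : ∀ g ∈ Δ, ∀ x ∈ P, ρ g x ∈ P)
    (key : ∀ W ≤ P, (∀ g ∈ Δ, ∀ x ∈ W, ρ g x ∈ W) → ∀ (n : ℕ) (w : Basis (Fin (n + 1)) E W),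
      ∃ F : U [⋀^Fin (n + 1)]→ₗ[E] E, F (fun i => (w i : U)) ≠ 0 ∧
        ∀ g ∈ Δ, ∃ c : E, ∀ y : Fin (n + 1) → U, F (fun i => ρ g (y i)) = c * F y) :
    IsSemisimpleOn ρ Δ P := by
  intro W hWP hW
  obtain ⟨r, hr⟩ : ∃ r, finrank E W = r := ⟨_, rfl⟩
  rcases r with _ | n
  · have h1 : W = ⊥ := Submodule.finrank_eq_zero.1 hr
    refine ⟨P, le_rfl, hP, ?_, ?_⟩
    · rw [h1, bot_inf_eq]
    · rw [h1, bot_sup_eq]
  · obtain ⟨F, h1, h2⟩ := key W hWP hW n (finBasisOfFinrankEq E W hr)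
    have h3 := isCompl_perp F (finBasisOfFinrankEq E W hr) h1
    refine ⟨perp F W ⊓ P, inf_le_right, ?_, ?_, ?_⟩
    · rintro g hg x ⟨hx, hx'⟩
      refine ⟨fun y hy => ?_, hP g hg x hx'⟩
      obtain ⟨c, hc⟩ := h2 g hg
      have h4 : F.curryLeft (ρ g x) y = F fun i => ρ g ((Fin.cons x fun i => ρ g⁻¹ (y i) :
          Fin (n + 1) → U) i) := by
        rw [AlternatingMap.curryLeft_apply_apply]
        congr 1
        funext i
        refine Fin.cases ?_ (fun i => ?_) i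
        · rfl
        · exact (rho_inv ρ g (y i)).symm
      rw [h4, hc]
      have h5 : F.curryLeft x (fun i => ρ g⁻¹ (y i)) = 0 :=
        hx _ fun i => hW _ (Δ.inv_mem hg) _ (hy i)
      rw [AlternatingMap.curryLeft_apply_apply] at h5
      have h6 : F (Fin.cons x fun i => ρ g⁻¹ (y i)) = 0 := h5
      rw [h6, mul_zero]
    · rw [← inf_assoc, h3.inf_eq_bot, bot_inf_eq]
    · rw [← sup_inf_assoc_of_le (perp F W) hWP, h3.sup_eq_top, top_inf_eq]

end SS

end Pool.Agent.N211.MO
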