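import Pool.Agent.N211.MO.Geo
import Pool.Agent.N211.BT.TQ2

/-!
# Functionals on the stable lines
-/

set_option linter.unusedSectionVars false

open CategoryTheory AlgebraicGeometry TensorProduct

universe u

namespace Pool.Agent.N211.MO

open Module Matrix
open Pool.Agent.H914 Pool.Agent.H914.VarClass Pool.Agent.H914.VarClass.Obj
  Pool.Agent.H914.WeilCohomology
open Pool.Agent.Y121.AHS
open Pool.Agent.Y133.Half (pw wb)
open Pool.Agent.N996.BP (kp kp_apply cQ HData mG kp_map)
open Pool.Agent.N996.BP.Geo (Fx)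
open Pool.Agent.N211.BT (GaloisAction bL bL_apply mapB mapB_apply mulB mulB_apply phi phi_act
  sum_phi rE rC emL_map emL_mul emL_add emL_smul emL_sum act_wb phi_deg twL_eq mapL_deg)
open scoped Kronecker

variable {k : Type u} [Field k] {𝒱 : VarClass k} {ops : CycleOps 𝒱}
  {T : HodgeTheory ops} {X A : 𝒱.Obj} {E : Type} [Field E] [Algebra T.W.K E]
  {Γ : Type} [Group Γ] (G : GaloisAction T E Γ X) {N : ℕ}

lemma xL_deg {Y A : 𝒱.Obj} {i j : ℕ} {x : HL T.W E Y} {y : HL T.W E A} (hx : IsDeg i x)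
    (hy : IsDeg j y) : IsDeg (i + j) (xL x y) :=
  (baseW T.W E).mul_mem (mapL_deg (fst Y A) hx) (mapL_deg (snd Y A) hy)

lemma xL_smul {Y A : 𝒱.Obj} (c : E) (x : HL T.W E Y) (y : HL T.W E A) :
    xL x (c • y) = c • xL x y := by
  rw [xL, xL, map_smul, map_smul]

lemma xL_smul' {Y A : 𝒱.Obj} (c : E) (x : HL T.W E Y) (y : HL T.W E A) :
    xL (c • x) y = c • xL x y := by
  rw [xL, xL, map_smul, map_smul, LinearMap.smul_apply]

/-- The properties of the actions on the cohomology of `A` and of `X ^ (N + 1) × A`, the Tate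
conjecture for `X ^ (N + 1) × A` (for the classes in `C`), and the existence of the dual lines. The
subgroups are those with the property `O`. -/
structure Setup (G : GaloisAction T E Γ X) (A : 𝒱.Obj) (N : ℕ)
    (σA : Γ → (HL T.W E A →ₗ[E] HL T.W E A))
    (σP : Γ → (HL T.W E ((pw X N).prod A) →ₗ[E] HL T.W E ((pw X N).prod A)))
    (O : Subgroup Γ → Prop) (C : ℕ → Set (T.W.H ((pw X N).prod A))) : Prop where
  inf : ∀ D D', O D → O D' → O (D ⊓ D')
  fin : ∀ D, O D → D.FiniteIndex
  xp : ∀ g x y, σP g (xL x y) = xL (G.ρ N g x) (σA g y)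
  hodge : ∀ j, ∀ c ∈ C j, IsHodge T ((pw X N).prod A) j c
  cyc : ∀ j, ∀ c ∈ C j, ∃ D, O D ∧ ∀ g ∈ D,
    σP g (emL T.W E c) = (G.χ g : E) ^ j • emL T.W E c
  tate : ∀ (j : ℕ) (z : HL T.W E ((pw X N).prod A)), IsDeg (2 * j) z →
    (∃ D, O D ∧ ∀ g ∈ D, σP g z = (G.χ g : E) ^ j • z) →
    z ∈ Submodule.span E {y | ∃ c ∈ C j, y = emL T.W E c}
  line : ∀ Δ, O Δ → ∀ (c : Γ → E) (d : ℕ) (x : HL T.W E (pw X N)), x ≠ 0 → IsDeg d x →
    (∀ g ∈ Δ, G.ρ N g x = c g • x) → ∃ (y : HL T.W E A) (d' m : ℕ) (D : Subgroup Γ), y ≠ 0 ∧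
      IsDeg d' y ∧ d + d' = 2 * m ∧ O D ∧ ∀ g ∈ D, c g • σA g y = (G.χ g : E) ^ m • y

variable {G}

/-- **Functionals on the stable lines.** -/
theorem lineFn [Algebra E ℂ] {ι : Type} [Fintype ι] [DecidableEq ι]
    (e : Basis ι T.W.K (T.W.H X)) {deg : ι → ℕ} (he : ∀ j, e j ∈ T.W.gr X (deg j))
    {β : Type} [Fintype β] [DecidableEq β] (f : Basis β T.W.K (T.W.H A))
    {H : HData ι} {hF : DirectSum.IsInternal (Fx (toH T) X)}
    (hH : ∀ t : ℂ, t ≠ 0 → H.l t = mG hF e (fun k => t ^ k))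
    (hr : ∀ g, (rC G e g)ᵀ * cQ H.Qr * rC G e g =
      Matrix.diagonal (fun i => (algebraMap E ℂ (G.χ g)) ^ deg i) * cQ H.Qr)
    {σA : Γ → (HL T.W E A →ₗ[E] HL T.W E A)}
    {σP : Γ → (HL T.W E ((pw X N).prod A) →ₗ[E] HL T.W E ((pw X N).prod A))}
    {O : Subgroup Γ → Prop} {C : ℕ → Set (T.W.H ((pw X N).prod A))} (S : Setup G A N σA σP O C)
    {Δ : Subgroup Γ} (hΔ : O Δ) : LineFn (rE G e) deg Δ (Fin (N + 1)) := by
  classical
  intro c v d hv hd hc
  obtain ⟨x, rfl⟩ : ∃ x, phi e E N x = v := (phi e E N).surjective v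
  have hx : x ≠ 0 := by
    rintro rfl
    exact hv (map_zero _)
  have hxd : IsDeg d x := (phi_deg e he).2 hd
  have hxs : ∀ g ∈ Δ, G.ρ N g x = c g • x := fun g hg => by
    apply (phi e E N).injective
    rw [phi_act, map_smul]
    exact hc g hg
  obtain ⟨y, d', m, D, hy, hyd, hm, hD, hys⟩ := S.line Δ hΔ c d x hx hxd hxs
  have hz : xL x y ∈ Submodule.span E {w | ∃ c ∈ C m, w = emL T.W E c} := by
    refine S.tate m _ (hm ▸ xL_deg hxd hyd) ⟨Δ ⊓ D, S.inf _ _ hΔ hD, fun g hg => ?_⟩
    rw [S.xp, hxs g hg.1, xL_smul', ← xL_smul, hys g hg.2, xL_smul]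
  obtain ⟨u, hu⟩ : ∃ u, u = phA f E y := ⟨_, rfl⟩
  have hu0 : u ≠ 0 := by
    rw [hu]
    exact fun h => hy ((phA f E).map_eq_zero_iff.1 h)
  obtain ⟨Q, hQ⟩ : ∃ Q : Set ((Fin (N + 1) → ι) × β → ℚ), Q = {q | clP e f N q ∈ C m} :=
    ⟨_, rfl⟩
  -- the coordinates over the complex numbers
  have hspan : tp (fun w => algebraMap E ℂ (phi e E N x w)) (fun a => algebraMap E ℂ (u a)) ∈
      Submodule.span ℂ (cr '' Q) := by
    have h1 : tp (fun w => algebraMap E ℂ (phi e E N x w)) (fun a => algebraMap E ℂ (u a)) =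
        fun p => algebraMap E ℂ (phP e f E N (xL x y) p) := by
      rw [phP_xL, hu]
      funext p
      exact (map_mul _ _ _).symm
    rw [h1]
    refine Submodule.span_induction (p := fun z _ => (fun p => algebraMap E ℂ
      (phP e f E N z p)) ∈ Submodule.span ℂ (cr '' Q)) ?_ ?_ ?_ ?_ hz
    · rintro _ ⟨z, hz, rfl⟩
      obtain ⟨q, hq⟩ := exists_clP e f (N := N) z
      refine Submodule.subset_span ⟨q, ?_, ?_⟩
      · rw [hQ, Set.mem_setOf_eq, hq]
        exact hz
      · rw [← hq, phP_clP]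
        funext p
        rw [map_ratCast]
        rfl
    · have h3 : (fun p => algebraMap E ℂ (phP e f E N 0 p)) = 0 := by
        funext w
        rw [map_zero, Pi.zero_apply, map_zero, Pi.zero_apply]
      rw [h3]
      exact Submodule.zero_mem _
    · intro x y _ _ hx hy
      have h3 : (fun p => algebraMap E ℂ (phP e f E N (x + y) p)) =
          (fun p => algebraMap E ℂ (phP e f E N x p)) +
            fun p => algebraMap E ℂ (phP e f E N y p) := by
        funext w
        rw [map_add, Pi.add_apply, map_add, Pi.add_apply]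
      rw [h3]
      exact Submodule.add_mem _ hx hy
    · intro t x _ hx
      have h3 : (fun p => algebraMap E ℂ (phP e f E N (t • x) p)) =
          algebraMap E ℂ t • fun p => algebraMap E ℂ (phP e f E N x p) := by
        funext w
        rw [map_smul, Pi.smul_apply, smul_eq_mul, map_mul, Pi.smul_apply, smul_eq_mul]
      rw [h3]
      exact Submodule.smul_mem _ _ hx
  obtain ⟨B, hB⟩ := isMat_exists (T := toH T) f Complex.I
  have hWeil := isMat_pb (T := toH T) (N := N) e f hH Complex.I_ne_zero hB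
  have hkp : ∀ g, kp (Fin (N + 1)) (rC G e g) =
      (kp (Fin (N + 1)) (rE G e g)).map (algebraMap E ℂ) := fun g =>
    kp_map (algebraMap E ℂ) (rE G e g)
  obtain ⟨F, D', hD', hF0, hFs⟩ := exists_fn H (κ := Fin (N + 1)) (deg := deg)
    (c := fun g => algebraMap E ℂ (G.χ g)) (fun g => by
      rw [Ne, map_eq_zero]
      exact Units.ne_zero _)
    (r := rC G e) (s := fun g => (sE f σA g).map (algebraMap E ℂ)) hr (B := B) (Q := Q) (j := m)
    (fun q hq => by
      rw [hQ] at hq
      refine weil_fix (T := toH T) (pb (wb e N) f) hWeil (j := m) ?_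
      have h1 : IsHodge T ((pw X N).prod A) m (clP e f N q) := S.hodge m _ hq
      exact h1)
    (fun q hq => by
      rw [hQ] at hq
      obtain ⟨D, hD, h1⟩ := S.cyc m _ hq
      refine ⟨D, S.fin D hD, fun g hg => ?_⟩
      have h2 := congrArg (phP e f E N) (h1 g hg)
      rw [phP_act G e f S.xp, map_smul, phP_clP] at h2
      funext p
      have h3 := congrArg (algebraMap E ℂ) (congrFun h2 p)
      rw [Pi.smul_apply, smul_eq_mul, map_mul, map_pow, map_ratCast, mulVec, dotProduct,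
        map_sum] at h3
      rw [Pi.smul_apply, smul_eq_mul, mulVec, dotProduct]
      refine Eq.trans ?_ h3
      refine Finset.sum_congr rfl fun p' _ => ?_
      rw [map_mul, map_ratCast, hkp, kroneckerMap_apply, kroneckerMap_apply, map_mul]
      rfl)
    (v := fun w => algebraMap E ℂ (phi e E N x w)) (u := fun a => algebraMap E ℂ (u a))
    (by
      obtain ⟨w, hw⟩ := Function.ne_iff.1 hv
      refine Function.ne_iff.2 ⟨w, ?_⟩
      rw [Pi.zero_apply] at hw ⊢
      exact (map_ne_zero (algebraMap E ℂ)).2 hw)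
    (by
      obtain ⟨w, hw⟩ := Function.ne_iff.1 hu0
      refine Function.ne_iff.2 ⟨w, ?_⟩
      rw [Pi.zero_apply] at hw ⊢
      exact (map_ne_zero (algebraMap E ℂ)).2 hw)
    (d := d) (fun w hw => hd w fun h => hw (by rw [h, map_zero])) hspan
  obtain ⟨θ, hθ⟩ : ∃ θ : Module.Dual E ℂ, θ (F fun w => algebraMap E ℂ (phi e E N x w)) ≠ 0 := by
    by_contra h
    push Not at h
    exact hF0 ((Module.forall_dual_apply_eq_zero_iff E _).1 h)
  have hι : ∀ g (a : (Fin (N + 1) → ι) → E),
      (fun w => algebraMap E ℂ ((kp (Fin (N + 1)) (rE G e g) *ᵥ a) w)) =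
        kp (Fin (N + 1)) (rC G e g) *ᵥ fun w => algebraMap E ℂ (a w) := by
    intro g a
    funext w
    rw [hkp, mulVec, mulVec, dotProduct, dotProduct, map_sum]
    exact Finset.sum_congr rfl fun w' _ => by rw [map_mul]; rfl
  let ψ : ((Fin (N + 1) → ι) → E) →ₗ[E] E :=
    { toFun := fun a => θ (F fun w => algebraMap E ℂ (a w))
      map_add' := fun a b => by
        have h : (fun w => algebraMap E ℂ ((a + b) w)) = (fun w => algebraMap E ℂ (a w)) +
            fun w => algebraMap E ℂ (b w) := by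
          funext w
          exact map_add _ _ _
        rw [h, map_add, map_add]
      map_smul' := fun t a => by
        have h : (fun w => algebraMap E ℂ ((t • a) w)) =
            algebraMap E ℂ t • fun w => algebraMap E ℂ (a w) := by
          funext w
          exact map_mul _ _ _
        rw [h, map_smul, RingHom.id_apply, smul_eq_mul, ← Algebra.smul_def, map_smul] }
  refine ⟨ψ, D', hD', hθ, fun g hg hg' a => ?_⟩
  obtain ⟨t, ht⟩ := hFs g hg
  have h1 : t = algebraMap E ℂ (c g) := by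
    have h2 := ht fun w => algebraMap E ℂ (phi e E N x w)
    rw [← hι, hc g hg'] at h2
    have h3 : (fun w => algebraMap E ℂ ((c g • phi e E N x) w)) =
        algebraMap E ℂ (c g) • fun w => algebraMap E ℂ (phi e E N x w) := by
      funext w
      exact map_mul _ _ _
    rw [h3, map_smul, smul_eq_mul] at h2
    exact (mul_right_cancel₀ hF0 h2).symm
  change θ (F fun w => algebraMap E ℂ ((kp (Fin (N + 1)) (rE G e g) *ᵥ a) w)) =
    c g * θ (F fun w => algebraMap E ℂ (a w))
  rw [hι, ht, h1, ← Algebra.smul_def, map_smul, smul_eq_mul]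

end Pool.Agent.N211.MO
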