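import Pool.Agent.N211.MO.Line

/-!
# Semisimplicity from the Tate conjecture for one product
-/

set_option linter.unusedSectionVars false

open CategoryTheory AlgebraicGeometry TensorProduct

universe u

namespace Pool.Agent.N211.MO

open Module Matrix
open Pool.Agent.H914 Pool.Agent.H914.VarClass Pool.Agent.H914.VarClass.Obj
  Pool.Agent.H914.WeilCohomology
open Pool.Agent.Y121.AHS
open Pool.Agent.Y133.Half (pw wb finrank_pw)
open Pool.Agent.N996.BP (kp cQ HData totalBetti IsPolarisation RForm)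
open Pool.Agent.N996.BP.Geo (Fx exists_ubasis)
open Pool.Agent.N211.BT

variable {k : Type u} [Field k] {𝒱 : VarClass k} {ops : CycleOps 𝒱}
  {T : HodgeTheory ops} {X A : 𝒱.Obj} {E : Type} [Field E] [Algebra T.W.K E]
  {Γ : Type} [Group Γ] {G : GaloisAction T E Γ X} {N : ℕ} {ψ : RForm T.W X}

lemma finrank_grL_le {Y : 𝒱.Obj} (i : ℕ) :
    finrank E (grL T.W E Y i) ≤ finrank T.W.K (T.W.gr Y i) := by
  let b := Module.finBasis T.W.K (T.W.gr Y i)
  have h1 : (T.W.gr Y i).baseChange E = Submodule.span E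
      (Set.range fun j => (1 : E) ⊗ₜ[T.W.K] (b j : T.W.H Y)) := by
    refine le_antisymm ?_ ?_
    · rw [Submodule.baseChange_eq_span, Submodule.span_le]
      rintro _ ⟨a, ha, rfl⟩
      have h2 : a = ∑ j, b.repr ⟨a, ha⟩ j • (b j : T.W.H Y) := by
        have h3 := congrArg Subtype.val (b.sum_repr ⟨a, ha⟩)
        refine h3.symm.trans ?_
        rw [AddSubmonoidClass.coe_finsetSum]
        rfl
      change (1 : E) ⊗ₜ[T.W.K] a ∈ _
      rw [h2, TensorProduct.tmul_sum]
      refine Submodule.sum_mem _ fun j _ => ?_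
      rw [TensorProduct.tmul_smul, ← algebraMap_smul E]
      exact Submodule.smul_mem _ _ (Submodule.subset_span ⟨j, rfl⟩)
    · rw [Submodule.span_le]
      rintro _ ⟨j, rfl⟩
      exact Submodule.tmul_mem_baseChange_of_mem _ (b j).2
  have h2 : finrank E ((T.W.gr Y i).baseChange E) ≤ finrank T.W.K (T.W.gr Y i) := by
    rw [h1]
    refine (finrank_range_le_card _).trans ?_
    rw [Fintype.card_fin]
  exact h2

/-- **Semisimplicity from the Tate conjecture for one product.** -/
theorem ss_main (h : IsPolarisation T X ψ) (hR : G.Respects ψ) (hE : Nonempty (E →+* ℂ))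
    {σA : Γ → (HL T.W E A →ₗ[E] HL T.W E A)}
    {σP : Γ → (HL T.W E ((pw X N).prod A) →ₗ[E] HL T.W E ((pw X N).prod A))}
    {O : Subgroup Γ → Prop} {C : ℕ → Set (T.W.H ((pw X N).prod A))} (S : Setup G A N σA σP O C)
    {Δ : Subgroup Γ} (hΔ : O Δ) {m i : ℕ}
    (hN : finrank T.W.K (T.W.gr (pw X m) i) * (m + 1) ≤ N + 1) :
    IsSemisimpleOn (G.ρ m) Δ (grL T.W E (pw X m) i) := by
  classical
  obtain ⟨φ⟩ := hE
  rcases subsingleton_or_nontrivial (T.W.H X) with hs | hs
  · intro U hU hst
    have := subsingleton_pw (E := E) hs m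
    exact ⟨U, hU, hst, Subsingleton.elim _ _, Subsingleton.elim _ _⟩
  let _ : Algebra E ℂ := φ.toAlgebra
  have hch : CharZero E := charZero_of_injective_algebraMap (algebraMap T.W.K E).injective
  obtain ⟨ι, _, _, e, o, deg, heo, hdeg⟩ := exists_ubasis T.W X
  have hdo : deg o = 0 := deg_unit hdeg heo
  have ho : (1 : ℂ) ⊗ₜ[T.W.K] e o ∈ Fx (toH T) X (0, 0) := by
    rw [heo]
    have h1 := (N996.BP.Geo.isHodge_one (T := toH T) (X := X)).2
    exact h1
  obtain ⟨H, hHo, -, hH, P, c, -, hP, hQr⟩ := exists_hdata' h.isPHS e o ho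
  have hr := fun g => (rC_form G e hdeg h hR hP hQr g).2
  obtain ⟨f, hf⟩ : ∃ f : Basis (Fin (finrank T.W.K (T.W.H A))) T.W.K (T.W.H A), True :=
    ⟨Module.finBasis _ _, trivial⟩
  have hL := lineFn e hdeg f hH hr S hΔ
  have hhom : ∀ x, phi e E m x ∈ homS E deg (Fin (m + 1)) i ↔ x ∈ grL T.W E (pw X m) i :=
    fun x => (phi_deg e hdeg).symm
  have hfr : finrank E (homS E deg (Fin (m + 1)) i) ≤ finrank T.W.K (T.W.gr (pw X m) i) := by
    refine le_trans (le_of_eq ?_) (finrank_grL_le (E := E) (Y := pw X m) i)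
    have h1 : homS E deg (Fin (m + 1)) i =
        (grL T.W E (pw X m) i).map (phi e E m).toLinearMap := by
      ext a
      constructor
      · intro ha
        refine ⟨(phi e E m).symm a, (hhom _).1 ?_, (phi e E m).apply_symm_apply a⟩
        rw [LinearEquiv.apply_symm_apply]
        exact ha
      · rintro ⟨x, hx, rfl⟩
        exact (hhom x).2 hx
    rw [h1]
    exact LinearEquiv.finrank_map_eq (phi e E m) _
  have hss := ss_coord (κ := Fin (m + 1)) (Δ := Δ) (rE_one G e) (rE_mul G e)
    (fun g i j => rE_deg G hdeg g i j) hfr fun n hn =>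
      hL.of_card hdo (fun g i => rE_o G heo g i) (by
        rw [Fintype.card_prod, Fintype.card_fin, Fintype.card_fin, Fintype.card_fin]
        exact (Nat.mul_le_mul_right _ hn).trans hN)
  rw [isSemisimpleOn_iff] at hss ⊢
  exact ssOn_tr (phi e E m).symm (S := (Δ : Set Γ))
    (op := fun g => rp (rE G e) (Fin (m + 1)) (rE_one G e) (rE_mul G e) g)
    (op' := fun g => G.ρ m g)
    (fun g _ x => by
      rw [LinearEquiv.symm_apply_eq, phi_act, LinearEquiv.apply_symm_apply]
      rfl) (fun x => by rw [← hhom, LinearEquiv.apply_symm_apply]) hss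

end Pool.Agent.N211.MO
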